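import Pool.Agent.W622.ETC.Stm

set_option autoImplicit false

namespace Pool.Agent.W622.ETC

open Module

theorem t_CBF (hNGF : S_NGF) (hAGB : S_AGB) (hAGP : S_AGP) (hAG2 : S_AG2) (hAG3 : S_AG3) :
    S_CBF := by
  intro V _ _ _ A hA
  have hgood : ∀ X, Block A X → Good A X := by
    intro X hX
    by_contra h
    exact hNGF V A hA X ⟨hX, h⟩
  obtain ⟨e, p, he, heven, hp, hn, hdim, hcard, hT⟩ := hAGB V A hA hgood
  have hdvd := hAGP V A e p hA hgood he hp hn hdim hcard hT
  rcases Nat.lt_or_ge p 3 with h | h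
  · have : p = 2 := by omega
    subst this
    exact hAG2 V A e hA hgood he hn hdim hcard hdvd hT
  · exact hAG3 V A e p hA hgood he h hn hdim hcard hT

theorem t_MCF (hN3 : S_N3) (hFWF : S_FWF) (hCBF : S_CBF) : S_MCF := by
  intro V _ _ _ A hA
  rcases Nat.lt_or_ge 3 (finrank (ZMod 2) V) with h4 | h3
  · by_cases hc : (∃ Z : DSub V, IsCone A Z) ∨ Odd (finrank (ZMod 2) V)
    · exact hFWF V A ⟨hA, h4, hc⟩
    · push Not at hc
      exact hCBF V A ⟨hA, h4, hc.1, by simpa using hc.2⟩
  · exact hN3 V A hA h3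

theorem t_CORE (hQUO : S_QUO) (hMCF : S_MCF) : S_CORE := by
  have key : ∀ n : ℕ, ∀ (V : Type) [AddCommGroup V] [Module (ZMod 2) V] [Finite V] (A : Fam V),
      finrank (ZMod 2) V = n → AltFam A → Hered A → El A := by
    intro n
    induction n using Nat.strong_induction_on with
    | _ n ih =>
      intro V _ _ _ A hn hA hH
      have hsub : ∀ B : Fam V, AltFam B → Hered B → supp B ≠ ⊤ → El B := by
        intro B hB hBH hs
        obtain ⟨V', i1, i2, i3, A', h1, h2, h3, h4⟩ := hQUO V B hB hBH hs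
        exact h4 (ih (finrank (ZMod 2) V') (hn ▸ h1) V' A' rfl h2 h3)
      by_contra hnel
      have htop : supp A = ⊤ := by
        by_contra h
        exact hnel (hsub A hA hH h)
      refine hMCF V A ⟨hA, hH, htop, ?_, hnel⟩
      intro X hX
      refine hsub _ (hA.res X) (hH.res X) ?_
      intro h
      exact hX (eq_top_iff.mpr (h ▸ supp_res_le A X))
  intro V _ _ _ A hA hH
  exact key _ V A rfl hA hH

end Pool.Agent.W622.ETC
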