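import Pool.Agent.W622.ETC.Defs

set_option autoImplicit false
set_option linter.unusedSectionVars false

namespace Pool.Agent.W622.ETC

open Module

universe u

section
variable {V : Type u} [AddCommGroup V] [Module (ZMod 2) V]

/-! ### characteristic two -/

theorem zadd (x : ZMod 2) : x + x = 0 := CharTwo.add_self_eq_zero x

theorem vadd (v : V) : v + v = 0 := by
  have : (2 : ZMod 2) • v = 0 := by
    rw [show (2 : ZMod 2) = 0 from rfl, zero_smul]
  rwa [two_smul] at this

theorem add_eq_zero' {v w : V} : v + w = 0 ↔ v = w := by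
  constructor
  · intro h
    have := congrArg (· + w) h
    simpa [add_assoc, vadd] using this
  · rintro rfl; exact vadd v

theorem add_cancel' (v w : V) : v + w + w = v := by rw [add_assoc, vadd, add_zero]

theorem add_cancel_left' (v w : V) : v + (v + w) = w := by rw [← add_assoc, vadd, zero_add]

theorem z01 (x : ZMod 2) : x = 0 ∨ x = 1 := by
  fin_cases x
  · exact Or.inl rfl
  · exact Or.inr rfl

theorem z_ne {x : ZMod 2} (h : x ≠ 0) : x = 1 := (z01 x).resolve_left h

theorem z_ne' {x : ZMod 2} (h : x ≠ 1) : x = 0 := (z01 x).resolve_right h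

/-! ### membership lemmas -/

theorem mem_res {A : Fam V} {X : DSub V} {ω : Frm V} :
    ω ∈ res A X ↔ ω ∈ A ∧ ∀ a : V, ω a ∈ X := Iff.rfl

theorem mem_res' {A : Fam V} {X : DSub V} {ω : Frm V} :
    ω ∈ res A X ↔ ω ∈ A ∧ sp ω ≤ X := by
  constructor
  · rintro ⟨h, h'⟩
    exact ⟨h, by rintro _ ⟨a, rfl⟩; exact h' a⟩
  · rintro ⟨h, h'⟩
    exact ⟨h, fun a => h' ⟨a, rfl⟩⟩

theorem mem_ann {b : V} {f : Dl V} : f ∈ ann b ↔ f b = 0 := Iff.rfl

theorem mem_sp {ω : Frm V} {f : Dl V} : f ∈ sp ω ↔ ∃ a, ω a = f := Iff.rfl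

theorem res_le (A : Fam V) (X : DSub V) : res A X ≤ A := fun _ h => h.1

theorem res_mono (A : Fam V) {X Y : DSub V} (h : X ≤ Y) : res A X ≤ res A Y :=
  fun _ hω => ⟨hω.1, fun a => h (hω.2 a)⟩

theorem res_mono_left {A B : Fam V} (h : A ≤ B) (X : DSub V) : res A X ≤ res B X :=
  fun _ hω => ⟨h hω.1, hω.2⟩

theorem res_res (A : Fam V) (X Y : DSub V) : res (res A X) Y = res A (X ⊓ Y) := by
  ext ω
  constructor
  · rintro ⟨⟨h1, h2⟩, h3⟩
    exact ⟨h1, fun a => ⟨h2 a, h3 a⟩⟩
  · rintro ⟨h1, h2⟩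
    exact ⟨⟨h1, fun a => (h2 a).1⟩, fun a => (h2 a).2⟩

theorem res_res_of_le (A : Fam V) {X Y : DSub V} (h : X ≤ Y) : res (res A Y) X = res A X := by
  rw [res_res, inf_eq_right.mpr h]

theorem res_top (A : Fam V) : res A ⊤ = A := by
  ext ω; exact ⟨fun h => h.1, fun h => ⟨h, fun _ => Submodule.mem_top⟩⟩

theorem res_bot (A : Fam V) : res A ⊥ = ⊥ := by
  ext ω
  constructor
  · rintro ⟨_, h⟩
    rw [Submodule.mem_bot]
    exact LinearMap.ext fun a => (Submodule.mem_bot (ZMod 2)).mp (h a)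
  · intro h
    rw [Submodule.mem_bot] at h
    subst h
    exact Submodule.zero_mem _

theorem wd_apply (p g : Dl V) (a : V) : wd p g a = p a • g + g a • p := rfl

theorem wd_apply' (p g : Dl V) (a b : V) : wd p g a b = p a * g b + g a * p b := rfl

theorem wd_alt (p g : Dl V) : Alt (wd p g) := by
  intro a
  rw [wd_apply', mul_comm (g a) (p a), zadd]

theorem wd_self (p : Dl V) : wd p p = 0 := by
  ext a b
  rw [wd_apply', zadd]; rfl

theorem wd_comm (p g : Dl V) : wd p g = wd g p := by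
  ext a b
  rw [wd_apply', wd_apply', add_comm]

theorem Alt.zero : Alt (0 : Frm V) := fun _ => rfl

theorem Alt.add {ω η : Frm V} (h : Alt ω) (h' : Alt η) : Alt (ω + η) := by
  intro a
  rw [LinearMap.add_apply, LinearMap.add_apply, h a, h' a, add_zero]

theorem Alt.symm {ω : Frm V} (h : Alt ω) (a b : V) : ω a b = ω b a := by
  have h1 : ω (a + b) (a + b) = ω a b + ω b a := by
    have : ω (a + b) (a + b) = ω a a + ω a b + (ω b a + ω b b) := by
      simp only [map_add, LinearMap.add_apply]; abel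
    rw [this, h a, h b, zero_add, add_zero]
  rw [h (a + b)] at h1
  exact add_eq_zero'.mp h1.symm

theorem Alt.mem_ann {ω : Frm V} (h : Alt ω) {b : V} (hb : ω b = 0) (a : V) : ω a ∈ ann b := by
  rw [ETC.mem_ann, h.symm, hb]; rfl

theorem Alt.self_mem_ann {ω : Frm V} (h : Alt ω) (a : V) : ω a ∈ ann a := h a

theorem mem_res_ann {A : Fam V} (hA : AltFam A) {b : V} {ω : Frm V} :
    ω ∈ res A (ann b) ↔ ω ∈ A ∧ ω b = 0 := by
  constructor
  · rintro ⟨h, h'⟩
    refine ⟨h, LinearMap.ext fun a => ?_⟩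
    rw [(hA ω h).symm]
    exact h' a
  · rintro ⟨h, h'⟩
    exact ⟨h, fun a => (hA ω h).mem_ann h' a⟩

theorem AltFam.res {A : Fam V} (hA : AltFam A) (X : DSub V) : AltFam (res A X) :=
  fun ω h => hA ω h.1

theorem Hered.res {A : Fam V} (hA : Hered A) (X : DSub V) : Hered (res A X) := by
  intro Y
  rw [res_res]
  exact hA _

theorem Hered.linked {A : Fam V} (hA : Hered A) : Linked A := by
  have := hA ⊤
  rwa [res_top] at this

theorem supp_le {A : Fam V} {X : DSub V} : supp A ≤ X ↔ ∀ ω ∈ A, ∀ a, ω a ∈ X := by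
  constructor
  · intro h ω hω a
    exact h (Submodule.mem_iSup_of_mem ω (Submodule.mem_iSup_of_mem hω ⟨a, rfl⟩))
  · intro h
    refine iSup_le fun ω => iSup_le fun hω => ?_
    rintro _ ⟨a, rfl⟩
    exact h ω hω a

theorem sp_le_supp {A : Fam V} {ω : Frm V} (h : ω ∈ A) : sp ω ≤ supp A :=
  le_iSup_of_le ω (le_iSup_of_le h le_rfl)

theorem supp_res_le (A : Fam V) (X : DSub V) : supp (res A X) ≤ X :=
  supp_le.mpr fun _ h a => h.2 a

theorem supp_mono {A B : Fam V} (h : A ≤ B) : supp A ≤ supp B :=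
  supp_le.mpr fun _ hω a => sp_le_supp (h hω) ⟨a, rfl⟩

theorem sp_le {ω : Frm V} {X : DSub V} : sp ω ≤ X ↔ ∀ a, ω a ∈ X := by
  constructor
  · intro h a; exact h ⟨a, rfl⟩
  · rintro h _ ⟨a, rfl⟩; exact h a

theorem sp_zero : sp (0 : Frm V) = ⊥ := LinearMap.range_zero

theorem sp_eq_bot {ω : Frm V} : sp ω = ⊥ ↔ ω = 0 := LinearMap.range_eq_bot

theorem sp_add_le (ω η : Frm V) : sp (ω + η) ≤ sp ω ⊔ sp η := by
  rintro _ ⟨a, rfl⟩
  rw [LinearMap.add_apply]
  exact Submodule.add_mem_sup ⟨a, rfl⟩ ⟨a, rfl⟩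

theorem sp_wd_le (p g : Dl V) : sp (wd p g) ≤ Submodule.span (ZMod 2) {p, g} := by
  rintro _ ⟨a, rfl⟩
  rw [wd_apply]
  exact Submodule.add_mem _
    (Submodule.smul_mem _ _ (Submodule.subset_span (by simp)))
    (Submodule.smul_mem _ _ (Submodule.subset_span (by simp)))

theorem ann_ne_top {b : V} (hb : b ≠ 0) : ann b ≠ ⊤ := by
  intro h
  apply hb
  rw [← Module.forall_dual_apply_eq_zero_iff (ZMod 2)]
  intro f
  have : f ∈ ann b := h ▸ Submodule.mem_top
  exact this

theorem exists_ne_one {b : V} (hb : b ≠ 0) : ∃ f : Dl V, f b = 1 := by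
  by_contra h
  push Not at h
  exact hb ((Module.forall_dual_apply_eq_zero_iff (ZMod 2) b).mp fun f => z_ne' (h f))

theorem span_pair_mem {M : Type*} [AddCommGroup M] [Module (ZMod 2) M] {p g x : M} :
    x ∈ Submodule.span (ZMod 2) {p, g} ↔ x = 0 ∨ x = p ∨ x = g ∨ x = p + g := by
  rw [Submodule.mem_span_pair]
  constructor
  · rintro ⟨a, b, rfl⟩
    rcases z01 a with rfl | rfl <;> rcases z01 b with rfl | rfl <;> simp
  · rintro (rfl | rfl | rfl | rfl)
    · exact ⟨0, 0, by simp⟩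
    · exact ⟨1, 0, by simp⟩
    · exact ⟨0, 1, by simp⟩
    · exact ⟨1, 1, by simp⟩

theorem span_one_mem {M : Type*} [AddCommGroup M] [Module (ZMod 2) M] {p x : M} :
    x ∈ Submodule.span (ZMod 2) {p} ↔ x = 0 ∨ x = p := by
  rw [Submodule.mem_span_singleton]
  constructor
  · rintro ⟨a, rfl⟩
    rcases z01 a with rfl | rfl <;> simp
  · rintro (rfl | rfl)
    · exact ⟨0, by simp⟩
    · exact ⟨1, by simp⟩

end

section
variable {V : Type u} [AddCommGroup V] [Module (ZMod 2) V] [Finite V]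

instance : FiniteDimensional (ZMod 2) V := inferInstance

instance instFinDl : Finite (Dl V) := by
  exact Finite.of_injective (fun f : Dl V => (f : V → ZMod 2)) DFunLike.coe_injective

instance instFinFrm : Finite (Frm V) := by
  exact Finite.of_injective (fun f : Frm V => (f : V → Dl V)) DFunLike.coe_injective

instance instFinDSub : Finite (DSub V) :=
  Finite.of_injective (fun X : DSub V => (X : Set (Dl V))) SetLike.coe_injective

instance instFinFam : Finite (Fam V) :=
  Finite.of_injective (fun X : Fam V => (X : Set (Frm V))) SetLike.coe_injective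

/-- a subspace of the dual is the annihilator of its annihilator -/
theorem mem_of_coann {X : DSub V} {f : Dl V} (h : ∀ b : V, (∀ g ∈ X, g b = 0) → f b = 0) :
    f ∈ X := by
  have h1 : X.dualCoannihilator.dualAnnihilator = X :=
    Subspace.dualCoannihilator_dualAnnihilator_eq
  rw [← h1, Submodule.mem_dualAnnihilator]
  intro b hb
  exact h b fun g hg => (Submodule.mem_dualCoannihilator b).mp hb g hg

theorem exists_coann {X : DSub V} {f : Dl V} (h : f ∉ X) :
    ∃ b : V, (∀ g ∈ X, g b = 0) ∧ f b = 1 := by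
  by_contra hc
  push Not at hc
  exact h (mem_of_coann fun b hb => z_ne' (hc b hb))

theorem exists_ann {X : DSub V} (h : X ≠ ⊤) : ∃ b : V, b ≠ 0 ∧ X ≤ ann b := by
  have : ∃ f : Dl V, f ∉ X := by
    by_contra hc
    push Not at hc
    exact h (eq_top_iff.mpr fun f _ => hc f)
  obtain ⟨f, hf⟩ := this
  obtain ⟨b, hb, hb1⟩ := exists_coann hf
  refine ⟨b, ?_, fun g hg => hb g hg⟩
  rintro rfl
  simp at hb1

/-- prescribe an element of `V` by its values on a subspace of the dual -/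
theorem exists_val (X : DSub V) (φ : X →ₗ[ZMod 2] ZMod 2) : ∃ a : V, ∀ f : X, f.1 a = φ f := by
  obtain ⟨ψ, hψ⟩ := LinearMap.exists_extend φ
  obtain ⟨a, ha⟩ := (Module.evalEquiv (ZMod 2) V).surjective ψ
  refine ⟨a, fun f => ?_⟩
  have h1 : ψ f.1 = φ f := by rw [← hψ]; rfl
  rw [← h1, ← ha]
  rfl

/-- glue: for disjoint `X`, `Y` there is `a` agreeing with `a1` on `X` and `a2` on `Y` -/
theorem exists_glue {X Y : DSub V} (h : Disjoint X Y) (a1 a2 : V) :
    ∃ a : V, (∀ f ∈ X, f a = f a1) ∧ (∀ f ∈ Y, f a = f a2) := by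
  -- `a1 + a2` is a sum of an element killed by `X` and one killed by `Y`
  by_contra hc
  let e1 := X.dualCoannihilator
  let e2 := Y.dualCoannihilator
  have htop : e1 ⊔ e2 = ⊤ := by
    have h1 : (e1 ⊔ e2).dualAnnihilator = ⊥ := by
      rw [Submodule.dualAnnihilator_sup_eq, Subspace.dualCoannihilator_dualAnnihilator_eq,
        Subspace.dualCoannihilator_dualAnnihilator_eq]
      exact h.eq_bot
    have h2 := congrArg Submodule.dualCoannihilator h1
    rw [Subspace.dualAnnihilator_dualCoannihilator_eq] at h2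
    rw [h2]
    ext v
    simp
  have : a1 + a2 ∈ e1 ⊔ e2 := htop ▸ Submodule.mem_top
  obtain ⟨v, hv, w, hw, hvw⟩ := Submodule.mem_sup.mp this
  apply hc
  refine ⟨a1 + v, ?_, ?_⟩
  · intro f hf
    rw [map_add, (Submodule.mem_dualCoannihilator v).mp hv f hf, add_zero]
  · intro f hf
    have h3 : a1 + v = a2 + w := by
      have : a1 + v + (a2 + w) = 0 := by
        have h4 : a1 + v + (a2 + w) = (a1 + a2) + (v + w) := by abel
        rw [h4, hvw, vadd]
      exact add_eq_zero'.mp this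
    rw [h3, map_add, (Submodule.mem_dualCoannihilator w).mp hw f hf, add_zero]

/-- the support is the annihilator of the radical -/
theorem Alt.mem_sp_iff {ω : Frm V} (h : Alt ω) {f : Dl V} :
    f ∈ sp ω ↔ ∀ b : V, ω b = 0 → f b = 0 := by
  constructor
  · rintro ⟨a, rfl⟩ b hb
    rw [h.symm, hb]; rfl
  · intro hf
    refine mem_of_coann fun b hb => hf b ?_
    refine LinearMap.ext fun a => ?_
    rw [h.symm]
    exact hb (ω a) ⟨a, rfl⟩

theorem Alt.ker_iff {ω : Frm V} (h : Alt ω) {b : V} : ω b = 0 ↔ ∀ f ∈ sp ω, f b = 0 := by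
  constructor
  · intro hb f hf
    exact (h.mem_sp_iff.mp hf) b hb
  · intro hf
    refine LinearMap.ext fun a => ?_
    rw [h.symm]
    exact hf (ω a) ⟨a, rfl⟩

theorem Alt.ker_iff_ann {ω : Frm V} (h : Alt ω) {b : V} : ω b = 0 ↔ sp ω ≤ ann b := h.ker_iff

/-- values in disjoint subspaces: kernel of a sum -/
theorem add_ker {α β : Frm V} {X Y : DSub V} (hX : sp α ≤ X) (hY : sp β ≤ Y)
    (h : Disjoint X Y) {v : V} : (α + β) v = 0 ↔ α v = 0 ∧ β v = 0 := by
  constructor
  · intro h0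
    rw [LinearMap.add_apply] at h0
    have h1 : α v = β v := add_eq_zero'.mp h0
    have h2 : α v ∈ X ⊓ Y := ⟨hX ⟨v, rfl⟩, h1 ▸ hY ⟨v, rfl⟩⟩
    rw [h.eq_bot, Submodule.mem_bot] at h2
    exact ⟨h2, h1 ▸ h2⟩
  · rintro ⟨h1, h2⟩
    rw [LinearMap.add_apply, h1, h2, add_zero]

/-- supports of a sum with disjoint supports -/
theorem sp_add {α β : Frm V} (hα : Alt α) (hβ : Alt β) (h : Disjoint (sp α) (sp β)) :
    sp (α + β) = sp α ⊔ sp β := by
  refine le_antisymm (sp_add_le α β) ?_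
  refine sup_le ?_ ?_
  · intro f hf
    rw [(hα.add hβ).mem_sp_iff]
    intro b hb
    exact hα.mem_sp_iff.mp hf b ((add_ker le_rfl le_rfl h).mp hb).1
  · intro f hf
    rw [(hα.add hβ).mem_sp_iff]
    intro b hb
    exact hβ.mem_sp_iff.mp hf b ((add_ker le_rfl le_rfl h).mp hb).2

theorem finrank_sp_add_ker (ω : Frm V) :
    finrank (ZMod 2) (sp ω) + finrank (ZMod 2) (LinearMap.ker ω) = finrank (ZMod 2) V :=
  LinearMap.finrank_range_add_finrank_ker ω

theorem finrank_Dl : finrank (ZMod 2) (Dl V) = finrank (ZMod 2) V := Subspace.dual_finrank_eq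

theorem finrank_ann {b : V} (hb : b ≠ 0) :
    finrank (ZMod 2) (ann b : DSub V) + 1 = finrank (ZMod 2) V := by
  have h1 : (ann b : DSub V) = (Submodule.span (ZMod 2) {b}).dualAnnihilator := by
    ext f
    rw [mem_ann, Submodule.mem_dualAnnihilator]
    constructor
    · intro h w hw
      rcases span_one_mem.mp hw with rfl | rfl
      · simp
      · exact h
    · intro h; exact h b (Submodule.mem_span_singleton_self b)
  rw [h1]
  have := Subspace.finrank_add_finrank_dualAnnihilator_eq (Submodule.span (ZMod 2) {b})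
  have h2 : finrank (ZMod 2) (Submodule.span (ZMod 2) {b}) = 1 := finrank_span_singleton hb
  rw [h2] at this
  rw [← this, add_comm]

end

end Pool.Agent.W622.ETC
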