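import Mathlib
import Pool.Agent.H315R3.ETC.Defs

set_option autoImplicit false

/-!
Linear families of alternating forms over `F_2`.
`V` is a finite `F_2`-vector space, `Dl V` its dual, a form is a linear map `V → Dl V`.
-/

namespace Pool.Agent.W622.ETC

open Module

universe u

section
variable {V : Type u} [AddCommGroup V] [Module (ZMod 2) V]

/-- the dual space -/
abbrev Dl (V : Type u) [AddCommGroup V] [Module (ZMod 2) V] : Type u := V →ₗ[ZMod 2] ZMod 2

/-- bilinear forms -/
abbrev Frm (V : Type u) [AddCommGroup V] [Module (ZMod 2) V] : Type u := V →ₗ[ZMod 2] Dl V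

/-- subspaces of the dual space -/
abbrev DSub (V : Type u) [AddCommGroup V] [Module (ZMod 2) V] : Type u :=
  Submodule (ZMod 2) (Dl V)

/-- linear families of forms -/
abbrev Fam (V : Type u) [AddCommGroup V] [Module (ZMod 2) V] : Type u :=
  Submodule (ZMod 2) (Frm V)

/-- alternating forms -/
def Alt (ω : Frm V) : Prop := ∀ a : V, ω a a = 0

/-- the support of a form (its range, the annihilator of its radical) -/
abbrev sp (ω : Frm V) : DSub V := LinearMap.range ω

/-- all members are alternating -/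
def AltFam (A : Fam V) : Prop := ∀ ω ∈ A, Alt ω

/-- `A[X]`: members of `A` supported in `X` -/
def res (A : Fam V) (X : DSub V) : Fam V where
  carrier := {ω | ω ∈ A ∧ ∀ a : V, ω a ∈ X}
  add_mem' := fun {_ _} hx hy => ⟨A.add_mem hx.1 hy.1, fun a => X.add_mem (hx.2 a) (hy.2 a)⟩
  zero_mem' := ⟨A.zero_mem, fun _ => X.zero_mem⟩
  smul_mem' := fun c _ hx => ⟨A.smul_mem c hx.1, fun a => X.smul_mem c (hx.2 a)⟩

/-- functionals vanishing at `b` -/
def ann (b : V) : DSub V where
  carrier := {f | f b = 0}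
  add_mem' := by intro f g hf hg; show (f + g) b = 0; rw [LinearMap.add_apply, show f b = 0 from hf, show g b = 0 from hg, add_zero]
  zero_mem' := by simp
  smul_mem' := by intro c f hf; show (c • f) b = 0; rw [LinearMap.smul_apply, show f b = 0 from hf, smul_zero]

/-- the support of a family -/
def supp (A : Fam V) : DSub V := ⨆ ω ∈ A, sp ω

/-- `p ∧ g : a ↦ p(a) g + g(a) p`, linear in `g` -/
def wd (p : Dl V) : Dl V →ₗ[ZMod 2] Frm V where
  toFun g := p.smulRight g + g.smulRight p
  map_add' := by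
    intro g h; ext a b
    simp only [LinearMap.add_apply, LinearMap.smulRight_apply, LinearMap.smul_apply, smul_eq_mul]
    ring
  map_smul' := by
    intro c g; ext a b
    simp only [LinearMap.add_apply, LinearMap.smulRight_apply, LinearMap.smul_apply, smul_eq_mul,
      RingHom.id_apply]
    ring

/-- linkage -/
def Linked (A : Fam V) : Prop :=
  ∀ ω ∈ A, ∀ η ∈ A, ∀ a c : V, ω a = η c → ∃ ζ ∈ A, ζ a = ω a ∧ ζ c = ω a

/-- hereditary linkage -/
def Hered (A : Fam V) : Prop := ∀ X : DSub V, Linked (res A X)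

/-- locally in `A` implies in `A` -/
def LU (A : Fam V) : Prop :=
  ∀ ζ : Frm V, Alt ζ → (∀ a : V, ∃ ω ∈ A, ω a = ζ a) → ζ ∈ A

/-- families of elementary type -/
inductive El : Fam V → Prop
  | zero : El ⊥
  | loc (ω : Frm V) : Alt ω → El (Submodule.span (ZMod 2) {ω})
  | prod (A B : Fam V) : El A → El B → Disjoint (supp A) (supp B) → El (A ⊔ B)
  | cone (A : Fam V) (p : Dl V) (Y : DSub V) : El A → supp A ≤ Y → p ∉ Y →
      El (A ⊔ Submodule.map (wd p) Y)

/-- minimal configuration: every proper `A[X]` is of elementary type but `A` is not -/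
structure MC (A : Fam V) : Prop where
  alt : AltFam A
  her : Hered A
  top : supp A = ⊤
  el : ∀ X : DSub V, X ≠ ⊤ → El (res A X)
  nel : ¬ El A

/-- `X` is a cone of `A` with apex `p` -/
def Cone (A : Fam V) (X : DSub V) (p : Dl V) : Prop :=
  3 ≤ finrank (ZMod 2) X ∧ p ∈ X ∧ p ≠ 0 ∧ ∀ g ∈ X, wd p g ∈ A

/-- `X` is a cone of `A` -/
def IsCone (A : Fam V) (X : DSub V) : Prop := ∃ p : Dl V, Cone A X p

/-- maximal cones -/
def MaxCone (A : Fam V) (X : DSub V) : Prop :=
  IsCone A X ∧ ∀ Y : DSub V, IsCone A Y → X ≤ Y → Y = X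

/-- primitive members: nonzero and `A[sp ω] = {0, ω}` -/
def Prim (A : Fam V) (ω : Frm V) : Prop :=
  ω ∈ A ∧ ω ≠ 0 ∧ ∀ η ∈ A, sp η ≤ sp ω → η = 0 ∨ η = ω

/-- local blocks with their form -/
def LocForm (A : Fam V) (F : DSub V) (ω : Frm V) : Prop :=
  Prim A ω ∧ F = sp ω ∧ ∀ Z : DSub V, IsCone A Z → ¬ F ≤ Z

/-- local blocks -/
def LocBlock (A : Fam V) (F : DSub V) : Prop := ∃ ω : Frm V, LocForm A F ω

/-- blocks -/
def Block (A : Fam V) (X : DSub V) : Prop := MaxCone A X ∨ LocBlock A X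

/-- good subspaces -/
def Good (A : Fam V) (X : DSub V) : Prop :=
  ∀ c : V, ∀ ω ∈ A, ω c ∈ X → ∃ η ∈ res A X, η c = ω c

/-- good blocks -/
def GB (A : Fam V) : Set (DSub V) := {X | Block A X ∧ Good A X}

/-- bad (non-good) blocks -/
def BB (A : Fam V) : Set (DSub V) := {X | Block A X ∧ ¬ Good A X}

/-- normal form of a family of elementary type: an independent set of components -/
def Comps (A : Fam V) (s : Set (DSub V)) : Prop :=
  sSupIndep s ∧ A = ⨆ X ∈ s, res A X ∧
    ∀ X ∈ s, (∃ ω, Prim A ω ∧ X = sp ω) ∨ IsCone A X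

/-- `π` is the `X`-part of `ζ` -/
def IsPr (A : Fam V) (X : DSub V) (ζ π : Frm V) : Prop :=
  π ∈ res A X ∧ Disjoint (sp (ζ + π)) X

open Classical in
/-- the form of a local block -/
noncomputable def om (A : Fam V) (F : DSub V) : Frm V :=
  if h : ∃ ω, LocForm A F ω then h.choose else 0

/-- the sum of the good blocks -/
def PP (A : Fam V) : DSub V := sSup (GB A)

/-- blocks killed by `b` -/
def BL (A : Fam V) (b : V) : Set (DSub V) := {F | Block A F ∧ F ≤ ann b}

/-- bad blocks killed by `b` -/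
def BBL (A : Fam V) (b : V) : Set (DSub V) := {F | F ∈ BB A ∧ F ≤ ann b}

/-- case A: there is a cone, or the dimension is odd -/
structure FW (A : Fam V) : Prop where
  mc : MC A
  four : 4 ≤ finrank (ZMod 2) V
  or : (∃ Z : DSub V, IsCone A Z) ∨ Odd (finrank (ZMod 2) V)

/-- case B: no cones and the dimension is even -/
structure CB (A : Fam V) : Prop where
  mc : MC A
  four : 4 ≤ finrank (ZMod 2) V
  nc : ∀ Z : DSub V, ¬ IsCone A Z
  ev : Even (finrank (ZMod 2) V)

end

section
open Pool.Agent.H315R3.ETC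

/-- the quaternionic data `(V, q(a,b) = (ω(a,b))_ω)` of a family of forms -/
def QD {V : Type} [AddCommGroup V] [Module (ZMod 2) V] (A : Fam V) : QData where
  G := Multiplicative V
  Q := A → ZMod 2
  neg := 1
  q := fun a b ω => ω.1 a.toAdd b.toAdd
  zero := fun _ => 0

/-- `χ` is a symbol on the subgroup `W` of `G`: bimultiplicative on `W × G` and zero at
`(w, b)` whenever `q(w, b) = 0` -/
def Symb (S : QData) (W : Subgroup S.G) (χ : S.G → S.G → ZMod 2) : Prop :=
  (∀ a ∈ W, ∀ b ∈ W, ∀ c, χ (a * b) c = χ a c + χ b c) ∧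
  (∀ a ∈ W, ∀ b c, χ a (b * c) = χ a b + χ a c) ∧
  (∀ a ∈ W, ∀ b, S.q a b = S.zero → χ a b = 0)

/-- symbols extend: every symbol on a subgroup `W` is the restriction of a symbol on `G` -/
def MX (S : QData) : Prop :=
  ∀ (W : Subgroup S.G) (χ : S.G → S.G → ZMod 2), Symb S W χ →
    ∃ χ' : S.G → S.G → ZMod 2, Symb S ⊤ χ' ∧ ∀ a ∈ W, ∀ b, χ' a b = χ a b

end

end Pool.Agent.W622.ETC
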