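import Pool.Agent.W622.ETC.Basic

set_option autoImplicit false

/-!
Statements of the steps.  Each `S_XX` is a proposition; a part proves
`theorem t_XX (h1 : S_A) (h2 : S_B) … : S_XX`.
Notation in the comments: `V` finite over `F_2`, `n = dim V`, `A[X] = res A X`, `A_b = res A (ann b)`
(= members of `A` killing `b`), `i_a A = {ω a : ω ∈ A}`.
Everything is in characteristic two (`vadd : v + v = 0`).
-/

namespace Pool.Agent.W622.ETC

open Module

/-! ### general linear algebra -/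

/-- EVEN. The rank of an alternating form is even.
Proof: strong induction on the rank; if `ω a b = 1` put `f = ω a`, `g = ω b`, `ω' = ω + wd f g`; then
`ω' a = 0`, `ω' b = 0`, `ω'` is alternating, `wd f g` has range `⟨f,g⟩` of dimension 2 and
`Disjoint (sp ω') ⟨f,g⟩` (elements of `sp ω'` kill `a` and `b`), so `sp ω = sp ω' ⊔ ⟨f,g⟩` by `sp_add`. -/
def S_EVEN : Prop := ∀ (V : Type) [AddCommGroup V] [Module (ZMod 2) V] [Finite V] (ω : Frm V),
  Alt ω → Even (finrank (ZMod 2) (sp ω))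

/-- GLUE. An element of `V` can be prescribed on an independent set of subspaces of the dual.
Proof: extend the functional `∑ f_X ↦ ∑ f_X (α X)` on `sSup s` (direct sum) and use reflexivity, or
induction on the finite set `s` with `exists_glue`. -/
def S_GLUE : Prop := ∀ (V : Type) [AddCommGroup V] [Module (ZMod 2) V] [Finite V]
  (s : Set (DSub V)) (α : DSub V → V), sSupIndep s → ∃ a : V, ∀ X ∈ s, ∀ f ∈ X, f a = f (α X)

/-- IDIM. Dimension of the sum of an independent set. -/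
def S_IDIM : Prop := ∀ (V : Type) [AddCommGroup V] [Module (ZMod 2) V] [Finite V]
  (s : Finset (DSub V)), sSupIndep (s : Set (DSub V)) →
    finrank (ZMod 2) (sSup (s : Set (DSub V)) : DSub V) = ∑ X ∈ s, finrank (ZMod 2) X

/-! ### first consequences of linkage -/

/-- LU. Hereditarily linked families contain every alternating form which is locally in them.
Proof: for a subspace `W` of `V` let `A_W = res A (W^0)`.  Show `LU A_W` by downward induction on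
`W`: for `W = V`, `A_W = 0`.  Step: `LU A_{W+b} → LU A_W` (`b ∉ W`): given `ζ` alternating with
`ζ a ∈ i_a A_W` for all `a`, subtract `ω ∈ A_W` with `ω b = ζ b`, so `ζ b = 0`.  For each `a`:
`ζ a = ω₁ a`, `ζ (a+b) = ζ a = ω₂ (a+b)`; linkage of `A_W` for `(a, a+b)` gives `η ∈ A_W` with
`η a = η (a+b) = ζ a`, so `η b = 0`, `η ∈ A_{W+b}` and `η a = ζ a`. -/
def S_LU : Prop := ∀ (V : Type) [AddCommGroup V] [Module (ZMod 2) V] [Finite V] (A : Fam V),
  AltFam A → Hered A → LU A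

/-- PL (primal linkage). With `K_a = {y | ∀ ω ∈ A, ω a y = 0}`: if `ω(a,u) = ω(c,v)` for all
`ω ∈ A` there is `z ∈ K_{a+c}` with `u + z ∈ K_a`, `v + z ∈ K_c`.
Proof: first DL2: if `f ∈ i_a A`, `g ∈ i_c A`, `f + g ∈ i_{a+c} A` there is `ω ∈ A` with `ω a = f`,
`ω c = g` (subtract `ω₃` with `ω₃ (a+c) = f + g`; then `f = g`, use `Linked`).  Then take
annihilators in `V × V`: the subspace `{(u,v) : ∀ ω ∈ A, ω a u + ω c v = 0}` is the annihilator of
`P = {(ω a, ω c)}`, and the annihilator of `K_a × 0 + 0 × K_c + Δ(K_{a+c})` is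
`{(f,g) : f ∈ i_a A, g ∈ i_c A, f+g ∈ i_{a+c} A} = P` by DL2 (use `K_a^0 = i_a A`, finite
dimension).  E.g. by contradiction: if `(u,v)` is not in that sum there is a functional `(f,g)` on
`V × V` killing the sum with `f u + g v = 1`; then `f ∈ i_a A` etc. -/
def S_PL : Prop := ∀ (V : Type) [AddCommGroup V] [Module (ZMod 2) V] [Finite V] (A : Fam V),
  AltFam A → Linked A → ∀ a c u v : V, (∀ ω ∈ A, ω a u = ω c v) →
    ∃ z : V, (∀ ω ∈ A, ω a (u + z) = 0) ∧ (∀ ω ∈ A, ω c (v + z) = 0) ∧ (∀ ω ∈ A, ω (a + c) z = 0)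

/-- RIG1 (relative rigid element). `X ≥ supp A`, `x` not killed by `X`, and every `f ∈ X` with
`f x = 0` lies in `i_x A`.  Then there is `q ∈ X`, `q x = 1`, with `q ∧ g ∈ A` for all `g ∈ X`.
Proof. `W = {w | ∀ f ∈ X, f w = 0}`; all `ω ∈ A` kill `W`.  `B(a,y) = 0` means `ω a y = 0 ∀ ω ∈ A`,
`K_a = {y : B(a,y) = 0} ⊇ W + ⟨a⟩`.  Call `a ∉ W` rigid if `K_a ≤ W + ⟨a⟩`; `x` is rigid (annihilator
of `{f ∈ X, f x = 0}`).
Claim: if `a ∉ W + ⟨x⟩` then `a` or `a + x` is rigid.  Suppose `y ∈ K_a ∖ (W+⟨a⟩)`,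
`u ∈ K_{a+x} ∖ (W+⟨a+x⟩)`.  From `B(a,y)=0`, `B(a+x,u)=0`: `B(u+y,a) = B(u,a) = B(x,u)`; PL for
`(u+y,a),(x,u)` gives `z` with `B(x,u+z)=0` so `z ∈ u + W` or `z ∈ u + x + W`, hence
(1) `B(u,y) = B(u,x)` or `B(u,y) = B(y,x)`  (as elements: for all `ω`).
The same with `y + a` in place of `y`: (2) `B(y,u) = 0` or `B(y,u) = B(u+y+a,x)`.
The four combinations contradict `u, y ∉ W + ⟨x,a⟩` (note `x`, `a+x ∉ K_a` because `a ∉ K_x`;
similarly for `u`): e.g. `B(u,y)=B(u,x)` and `B(y,u)=B(u+y+a,x)` give `B(y+a,x)=0`,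
`y + a ∈ K_x = W+⟨x⟩`.
Hence `T = W ∪ {nonrigid}` is a subgroup (if `a, c ∈ T` and `r = a + c` is rigid, apply the claim
with `x := r` – the claim holds for every rigid element – to get `a` or `c` rigid), `x ∉ T`; choose
`q` with `q x = 1`, `q = 0` on `T` (so `q ∈ X`).  For `g ∈ X` put `ζ = q ∧ g`, `ζ a = q(a) g + g(a) q`.
If `a` is rigid, `i_a A = K_a^0 = {f ∈ X : f a = 0} ∋ ζ a`.  If `a ∈ T`, `q a = 0`, `ζ a = g(a) q`,
and `q ∈ i_a A = K_a^0` or `g(a) = 0`: if `y ∈ K_a` with `q y = 1` then `y` is rigid and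
`a ∈ K_y = W + ⟨y⟩`, so `a ∈ W`, `g a = 0`.  `LU A` gives `ζ ∈ A`. -/
def S_RIG1 : Prop := ∀ (V : Type) [AddCommGroup V] [Module (ZMod 2) V] [Finite V] (A : Fam V)
  (X : DSub V) (x : V), AltFam A → Linked A → LU A → supp A ≤ X → (∃ f ∈ X, f x = 1) →
  (∀ f ∈ X, f x = 0 → ∃ ω ∈ A, ω x = f) → ∃ q ∈ X, q x = 1 ∧ ∀ g ∈ X, wd q g ∈ A

/-- RIG. If `x ≠ 0`, every `f` with `f x = 0` is in `i_x A`, and `A_x` is of elementary type, so is
`A`.  Proof: RIG1 with `X = ⊤` gives `q`; `A = A_x ⊔ q ∧ ann x` (for `ω ∈ A`, `g = ω x ∈ ann x`,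
`(q ∧ g) x = g`, so `ω + q ∧ g` kills `x`); constructor `cone` (`q ∉ ann x`). -/
def S_RIG : Prop := ∀ (V : Type) [AddCommGroup V] [Module (ZMod 2) V] [Finite V] (A : Fam V)
  (x : V), AltFam A → Hered A → x ≠ 0 → (∀ f : Dl V, f x = 0 → ∃ ω ∈ A, ω x = f) →
  El (res A (ann x)) → El A

/-- ST0. In a minimal configuration `ann b` is not a cone-like family with apex `p`.
Proof: find `x` with `p x = 1` and some `ω₀ ∈ A` with `ω₀ b x = 1`: as `supp A = ⊤` and `b ≠ 0`, some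
`ω₀ ∈ A` has `ω₀ b ≠ 0` (`f b = 1` for some `f`, and `supp A ≤ ann b` otherwise), `ω₀ b y = 1`; if
`p y = 1` take `x = y`, else any `x₀` with `p x₀ = 1`, `x = x₀` or `x₀ + y`.  Then `x` satisfies the
hypothesis of RIG: for `f` with `f x = 0`, `f b = 0`: `(p ∧ f) x = f`; for `f b = 1` subtract `ω₀ x`. -/
def S_ST0 : Prop := ∀ (V : Type) [AddCommGroup V] [Module (ZMod 2) V] [Finite V] (A : Fam V)
  (b : V) (p : Dl V), MC A → b ≠ 0 → p ≠ 0 → p b = 0 → (∀ g : Dl V, g b = 0 → wd p g ∈ A) → False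

/-! ### normal form of families of elementary type -/

/-- NF. Families of elementary type are alternating and have components.
Proof: induction on `El`.  `zero`: `s = ∅`.  `loc ω`: `∅` if `ω = 0`, else `{sp ω}`.  `prod`: union of
the two sets (`sSup s_i ≤ supp` of the factor: for a component `X`, `X ≤ supp (res A X)`: for a
cone `X` with apex `p`, `dim X ≥ 3`, the members `p ∧ g` have ranges `⟨p,g⟩` which span `X`).
`cone A p Y`: if `dim Y = 0` the family is `⊥`; if `dim Y = 1` it is `{0, p ∧ y}` (`A = ⊥` because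
an alternating form of rank ≤ 1 is zero), local component `⟨p,y⟩`; if `dim Y ≥ 2` the single
component `⟨p⟩ ⊔ Y`, a cone with apex `p` (`p ∧ p = 0`). -/
def S_NF : Prop := ∀ (V : Type) [AddCommGroup V] [Module (ZMod 2) V] [Finite V] (A : Fam V),
  El A → AltFam A ∧ ∃ s : Set (DSub V), Comps A s

/-- SPLIT. Splitting a normal form. Proof: every `ω ∈ A` is a sum of `ω_X ∈ A[X]`, `X ∈ s`; the
support of a sum of forms with independent supports is the sum of the supports (`sp_add`), so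
`sp ω ≤ sSup t` forces `ω_X = 0` for `X ∉ t`. -/
def S_SPLIT : Prop := ∀ (V : Type) [AddCommGroup V] [Module (ZMod 2) V] [Finite V] (A : Fam V)
  (s t : Set (DSub V)), AltFam A → Comps A s → t ⊆ s →
  A = res A (sSup t) ⊔ res A (sSup (s \ t)) ∧ Disjoint (sSup t) (sSup (s \ t)) ∧
    Comps (res A (sSup t)) t

/-- ES1. A subspace `Z` of dimension ≥ 2 containing `p ≠ 0` with `p ∧ Z ⊆ A` lies in a component.
Proof: for `g ∈ Z ∖ ⟨p⟩`, `p ∧ g = ∑ ω_X`, supports independent, of even dimension, total dimension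
2; so exactly one `ω_X ≠ 0`, `p ∧ g = ω_X`, `⟨p,g⟩ ≤ X`; `p ∈ X` determines `X` (independence). -/
def S_ES1 : Prop := ∀ (V : Type) [AddCommGroup V] [Module (ZMod 2) V] [Finite V] (A : Fam V)
  (s : Set (DSub V)) (Z : DSub V) (p : Dl V), AltFam A → Comps A s → p ≠ 0 → p ∈ Z →
  2 ≤ finrank (ZMod 2) Z → (∀ g ∈ Z, wd p g ∈ A) → ∃ X ∈ s, Z ≤ X

/-- ES2. The support of a primitive form lies in a component.
Proof: `ω = ∑ ω_X`, `sp ω_X ≤ sp ω`, so `ω_X ∈ {0, ω}`. -/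
def S_ES2 : Prop := ∀ (V : Type) [AddCommGroup V] [Module (ZMod 2) V] [Finite V] (A : Fam V)
  (s : Set (DSub V)) (ω : Frm V), AltFam A → Comps A s → Prim A ω → ∃ X ∈ s, sp ω ≤ X

/-- FULL. Every element of the sum of the components is a value.
Proof: `f = ∑ f_X`; for each component `X` there are `ω_X ∈ A[X]`, `a_X` with `ω_X a_X = f_X`
(local: clear; cone with apex `p`: if `f_X ∈ ⟨p⟩`, `f_X = p`, choose `g ∈ X`, `a` with `g a = 1`,
`p a = 0`, `(p ∧ g) a = p`; else choose `a` with `p a = 1`, `f_X a = 0`, `(p ∧ f_X) a = f_X`); glue the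
`a_X` (GLUE): forms in `A[X]` only see the values of `X` at `a` (they are alternating). -/
def S_FULL : Prop := ∀ (V : Type) [AddCommGroup V] [Module (ZMod 2) V] [Finite V] (A : Fam V)
  (s : Set (DSub V)) (f : Dl V), AltFam A → Comps A s → f ∈ sSup s → ∃ ω ∈ A, ∃ a : V, ω a = f

/-! ### blocks -/

/-- BFULL. Fullness of a block (same argument as FULL for one component). -/
def S_BFULL : Prop := ∀ (V : Type) [AddCommGroup V] [Module (ZMod 2) V] [Finite V] (A : Fam V)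
  (X : DSub V) (f : Dl V), Block A X → f ∈ X → ∃ ω ∈ res A X, ∃ a : V, ω a = f

/-- A1. Cones have codimension ≥ 2.  Proof: `M = ⊤`: any `x` with `p x = 1` satisfies the hypothesis of
RIG (`(p ∧ f) x = f`), contradiction.  `dim M = n - 1`: `M = ann b` for some `b ≠ 0`, ST0. -/
def S_A1 : Prop := ∀ (V : Type) [AddCommGroup V] [Module (ZMod 2) V] [Finite V] (A : Fam V)
  (M : DSub V), MC A → IsCone A M → finrank (ZMod 2) M + 2 ≤ finrank (ZMod 2) V

/-- BNT. Blocks are proper and nonzero, and `A` itself is not spanned by one form.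
Proof: cones by A1 and dimension ≥ 3.  Local block `F = sp ω = ⊤`: then `A = {0, ω}` is `El`. -/
def S_BNT : Prop := ∀ (V : Type) [AddCommGroup V] [Module (ZMod 2) V] [Finite V] (A : Fam V)
  (X : DSub V), MC A → Block A X → X ≠ ⊤ ∧ X ≠ ⊥

/-- BLK. A block contained in `Y` is a component of `A[Y]`.
Proof: a maximal cone `X ≤ Y` is a cone of `A[Y]`, ES1 gives `X ≤ Z ∈ s`; `Z` is not local (`A[Z]`
contains at least two nonzero forms `p ∧ g`), so it is a cone, `Z = X`.  A local block: ES2 gives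
`X = sp ω ≤ Z ∈ s`; `Z` is not a cone (definition of local block), so `Z = sp ω'`, `ω ∈ A[Z]`, hence
`ω = ω'` (`Prim`). -/
def S_BLK : Prop := ∀ (V : Type) [AddCommGroup V] [Module (ZMod 2) V] [Finite V] (A : Fam V)
  (X Y : DSub V) (s : Set (DSub V)), AltFam A → Block A X → X ≤ Y → Comps (res A Y) s → X ∈ s

/-- A3. Proof: by ES1 (`Z = M ⊓ ann b`, dimension ≥ 2, contains `p`) `M ⊓ ann b ≤ M' ∈ s`.  If `M'` is
local, `M' = sp ω`, all `p ∧ g` (`g ∈ M ⊓ ann b`) are `0` or `ω`, so `M' = ⟨p,g⟩ ≤ M ⊓ ann b`.  If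
`M'` is a cone: when `M ⊔ M' ≠ ⊤` choose `b' ≠ 0` with `M ⊔ M' ≤ ann b'`, a normal form `s'` of
`res A (ann b')` (MC.el, NF); `M ∈ s'` (BLK), `M' ≤ Z ∈ s'` (ES1), `Z = M` because both contain
`M ⊓ ann b ≠ ⊥` (independence), so `M' ≤ M ⊓ ann b`.  When `M ⊔ M' = ⊤`: `M ⊓ M' = M ⊓ ann b` has
dimension `dim M - 1`, so `dim M' = n - 1`, contradicting A1. -/
def S_A3 : Prop := ∀ (V : Type) [AddCommGroup V] [Module (ZMod 2) V] [Finite V] (A : Fam V)
  (M : DSub V) (p : Dl V) (b : V) (s : Set (DSub V)), MC A → MaxCone A M → Cone A M p → b ≠ 0 →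
  p b = 0 → ¬ M ≤ ann b → Comps (res A (ann b)) s → M ⊓ ann b ∈ s

/-- A4. Maximal cones are good.
Proof. Let `f ∈ M`, `f = ζ₀ c`, `ζ₀ ∈ A`, and suppose `f ∉ i_c A[M]` (so `f, c ≠ 0`).  `p` an apex.
(★) If `ζ ∈ A`, `d ≠ 0`, `ζ d = 0`, `ζ c = f`, and (`M ≤ ann d` or `p d = 0`) then contradiction: by
BLK / A3, `M ⊓ ann d` is a component of a normal form of `A_d` (MC.el, NF); SPLIT: `ζ = ζ₁ + ζ₂`,
`ζ₁ ∈ A[M]`, `sp ζ₂` disjoint from `M ⊓ ann d ∋ f` (`f d = ζ c d = 0`), so `f = ζ₁ c`.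
For `a` with `f ∈ i_a A[M]`: `a ≠ c`, link `ω a = f = ζ₀ c`: `ζ a = ζ c = f`, `ζ (a+c) = 0`, so by
(★) `p (a+c) = 1`.  If `f = p`: choose `g ∈ M`, `a` with `g a = 1`, `p a = 0` : `(p∧g) a = p`, so
`p c = 1`, but `p c = f c = ζ₀ c c = 0`.  So `f ∉ ⟨p⟩`.  All `a` with `p a = 1`, `f a = 0` have
`(p ∧ f) a = f`; hence `p c = 0`; put `D = {d : p d = 1, f d = 0}`; for `d ∈ D` there is `ζ ∈ A` with
`ζ d = 0`, `ζ c = f` (take `a = c + d`).  For such `ζ`, `ker ζ = {0, d}`: otherwise there is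
`b' ∈ ker ζ`, `b' ≠ 0`, `p b' = 0`, contradiction by (★).
Counting: `Z = {ζ ∈ A : ζ c = f}` has `|A_c|` elements, contains the disjoint nonempty sets
`Z_d = {ζ ∈ Z : ζ d = 0}` (`d ∈ D`), each of size `|{ω ∈ A : ω c = ω d = 0}| = |A_c| / |i_d A_c|`,
and `|D| = 2^(n-2)`, `i_d A_c ≤ {g : g c = g d = 0}` of size `2^(n-2)`.  So equality:
`i_d A_c = {g : g c = g d = 0}` for `d ∈ D`.  RIG1 for the family `A_c`, `X = ann c`, `x = d`
(`LU` from S_LU) gives `q` with `q d = 1`, `q c = 0` and `q ∧ g ∈ A` for all `g ∈ ann c`: ST0. -/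
def S_A4 : Prop := ∀ (V : Type) [AddCommGroup V] [Module (ZMod 2) V] [Finite V] (A : Fam V)
  (M : DSub V), MC A → MaxCone A M → Good A M

/-- DEC. The decomposition `ζ = π + ζ^c` with respect to a good subspace `X`.
Existence: `E = {e : ∀ f ∈ X, f e = 0}`, `F = {a : ζ a ∈ X}` (`= E^⊥` for `ζ`).  If `a ∈ E ∩ F` then
`ζ a = η a` with `η ∈ A[X]`, and `η a = 0` as `a ∈ E`; so `ζ` kills `E ∩ F`.  Dimension count
(`F` = annihilator of `ζ(E)`, `dim ζ(E) = dim E - dim (E ∩ F)`) gives `E + F = V`.  Define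
`π (e + a) = ζ a` (`e ∈ E`, `a ∈ F`): well defined, alternating, values in `X`, and
`π v = ζ a ∈ i_a A[X] = i_v A[X]`, so `π ∈ A[X]` by `LU`.  `(ζ + π)(e + a) = ζ e`; if `ζ e ∈ X` then
`e ∈ E ∩ F`, `ζ e = 0`.
Uniqueness: `σ = π + π'` has support in `X` and `ζ + π' = (ζ + π) + σ`; by `sp_add`,
`sp σ ≤ sp (ζ + π') ⊓ X = ⊥`.
Properties: `ζ = π + (ζ + π)` with disjoint supports (`sp_add`, `add_ker`). -/
def S_DEC : Prop := ∀ (V : Type) [AddCommGroup V] [Module (ZMod 2) V] [Finite V] (A : Fam V)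
  (X : DSub V), AltFam A →
  (LU (res A X) → Good A X → ∀ ζ ∈ A, ∃ π, IsPr A X ζ π) ∧
  (∀ ζ ∈ A, ∀ π π', IsPr A X ζ π → IsPr A X ζ π' → π = π') ∧
  (∀ ζ ∈ A, ∀ π, IsPr A X ζ π →
    (∀ v, ζ v = 0 → π v = 0) ∧ sp π ≤ sp ζ ∧ (∀ v, ζ v ∈ X → π v = ζ v))

/-- STAR. Components of `A_b` versus a good subspace `X`.
Proof. Let `Z ∈ s` with `Z ⊓ X ≠ ⊥`.  If `Z = sp ω` is local, `0 ≠ h ∈ Z ⊓ X`, `h = ω c`, `π` the
`X`-part of `ω` (DEC): `π c = h ≠ 0`, `sp π ≤ sp ω`, so `π = ω` (Prim) and `Z ≤ X`.  If `Z` is a cone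
with apex `q`: for `g ∈ Z` the `X`-part `π` of `q ∧ g` satisfies `sp (q∧g) = sp π ⊔ sp (q∧g+π)`
(disjoint), dimensions even (EVEN) so `⟨q,g⟩ ≤ X` or `⟨q,g⟩ ⊓ X = ⊥` (`g ∉ ⟨q⟩`); as `h ∈ Z ⊓ X`,
taking `g = h` (or any `g` if `h = q`) gives `q ∈ X`, then `Z ≤ X`.
Second part: `t = {Z ∈ s | Disjoint Z X}`, `h ∈ X ⊓ sSup t`; by FULL (for `res (A_b) (sSup t)`,
SPLIT) `h = ζ c`, `sp ζ ≤ sSup t`; `π` the `X`-part of `ζ`, `π c = h`, `sp π ≤ sp ζ ≤ sSup t`, `sp π ≤ X`,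
`π ∈ A_b`, so `π = ∑ π_Z` with `sp π_Z ≤ sp π ≤ X`, `sp π_Z ≤ Z`, and only `Z ∈ t` occur; so `π = 0`,
`h = 0`. -/
def S_STAR : Prop := ∀ (V : Type) [AddCommGroup V] [Module (ZMod 2) V] [Finite V] (A : Fam V)
  (X : DSub V) (b : V) (s : Set (DSub V)), MC A → Good A X → b ≠ 0 → Comps (res A (ann b)) s →
  (∀ Z ∈ s, Z ≤ X ∨ Disjoint Z X) ∧ Disjoint (sSup {Z | Z ∈ s ∧ Disjoint Z X}) X

/-- ADD. The `X`-part is additive on each `A_b`, `b ≠ 0`.  Proof: normal form `s` of `A_b` (MC.el, NF),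
SPLIT with `t = {Z ∈ s | Z ≤ X}`, STAR: `A_b = A_b[sSup t] ⊔ A_b[X'']`, `sSup t ≤ X`, `X''` disjoint from
`X`; so the `X`-part is the first component (uniqueness in DEC). -/
def S_ADD : Prop := ∀ (V : Type) [AddCommGroup V] [Module (ZMod 2) V] [Finite V] (A : Fam V)
  (X : DSub V) (b : V) (ζ η π π' : Frm V), MC A → Good A X → b ≠ 0 → ζ ∈ A → η ∈ A → ζ b = 0 →
  η b = 0 → IsPr A X ζ π → IsPr A X η π' → IsPr A X (ζ + η) (π + π')

/-- BDIS. A good block is disjoint from every other block.  Proof: `Y ≤ ann b`, `b ≠ 0` (BNT);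
`Y` is a component of `A_b` (BLK); STAR: `Y ≤ X` or disjoint.  `Y ≤ X` with `Y ≠ X` is impossible:
`X` local: `A[Y] ⊆ A[X] = {0, ω}` and the nonzero members of `A[Y]`… give `Y = sp ω = X`; `X` a maximal
cone: `Y` local block is not inside a cone, `Y` maximal cone is not inside a bigger cone. -/
def S_BDIS : Prop := ∀ (V : Type) [AddCommGroup V] [Module (ZMod 2) V] [Finite V] (A : Fam V)
  (X Y : DSub V), MC A → X ∈ GB A → Block A Y → X ≠ Y → Disjoint X Y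

/-- COMP. `X`-parts do not change when a member of `A[Y]` is added.
Proof.  Write `π_X` for the `X`-part (exists, unique: DEC; `LU` by S_LU).  `X`, `Y` disjoint (BDIS), so
`π_X(η) = 0` for `η ∈ A[Y]`.
Step 1. Reduce to `Disjoint (sp ζ) Y`: write `ζ = ζ' + η₀`, `η₀ = π_Y(ζ)`, and use the case for
`(ζ', η₀)` and `(ζ', η₀ + η)`.
Step 2. Suppose `Disjoint (sp ζ) Y` and `π_X(ζ+η) ≠ π_X(ζ)`.  `ker (ζ+η) = ker ζ ⊓ ker η` must be `0`
(else ADD).  So `θ = ζ + η` is nondegenerate, `sp ζ ⊔ sp η = ⊤` disjoint, `sp η = Y`; in particular `n`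
is even (EVEN).  `α = π_X(θ)`, `σ = θ + α`; `sp α ⊔ sp σ = ⊤`, `sp σ ⊓ X = ⊥`, so `sp α = X ≠ ⊥`.
`τ = σ + η = ζ + α`.  (i) if `b ≠ 0` is killed by `σ` and `Y` then ADD on `σ, η`: `π_X(τ) = 0`, so
`π_X(ζ) = α` (since `ζ = τ + α`, `sp τ ⊓ X = ⊥`), contradiction.  So `ker σ ⊓ Y^⊥ = 0`.
(ii) if `b ≠ 0` is killed by `ζ` and `X`: ADD for `Y` on `ζ, α`: `π_Y(τ) = 0`, then
`ker σ = ker (τ + η) = ker τ ⊓ ker η ≤ Y^⊥`, and `ker σ ≠ 0` (`sp σ` is disjoint from `X ≠ ⊥`),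
contradicting (i).  So `ker ζ ⊓ X^⊥ = 0`.  Hence `dim X = dim Y` and, counting dimensions,
`sp ζ ⊔ X = ⊤` is a direct sum: `π_X(ζ) = 0`; similarly `π_Y(σ) = 0`.
So every violation `(ζ, η)` (with `sp ζ ⊓ Y = ⊥`) satisfies: `π_X(ζ) = 0`, `dim X = dim Y = m` even, and
`(σ, α)` is a violation for `(Y, X)`.
Step 3. If `X` is a cone, apex `p`, `m ≥ 4`: choose `g ∈ X ∖ ⟨p⟩`, `ζ' = ζ + p∧g`;
`ker ζ ⊓ ker (p∧g) ≠ 0` (dimension ≥ m - 2), so `π_Y(ζ') = 0` by ADD and `π_X(ζ') = p∧g`;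
`θ + p∧g = σ + (α + p∧g)`, `π_X(θ + p∧g) = α + p∧g ≠ p∧g`: `(ζ', η)` is a violation with
`π_X(ζ') ≠ 0`, contradiction.  If `Y` is a cone use the violation `(σ, α)` for `(Y, X)`.
Step 4. If `X`, `Y` are both local and a cone exists, let `M` be a maximal cone; it is a good block (A4)
different from `X`, `Y`; let `μ = π_M(θ)`; by Step 3, `π_X(θ+μ) = π_X(θ)`, `π_X(ζ+μ) = π_X(ζ)`,
`π_Y(ζ+μ) = π_Y(ζ) = 0`; so `(ζ+μ, η)` is a violation, hence `θ + μ` is nondegenerate; but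
`sp (θ + μ)` is disjoint from `M ≠ ⊥`.  If `n` is odd there is no violation (Step 2). -/
def S_COMP : Prop := ∀ (V : Type) [AddCommGroup V] [Module (ZMod 2) V] [Finite V] (A : Fam V)
  (X Y : DSub V) (ζ η π : Frm V), MC A →
  ((∃ Z : DSub V, IsCone A Z) ∨ Odd (finrank (ZMod 2) V)) → X ∈ GB A → Y ∈ GB A → X ≠ Y →
  ζ ∈ A → η ∈ res A Y → IsPr A X ζ π → IsPr A X (ζ + η) π

/-! ### case A -/

/-- FIND. In case A, the good blocks together with a non-spanning set `N` of bad blocks are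
independent.  Proof.  Facts: bad blocks are local (A4); `N ⊆ BL A b` for some `b ≠ 0`
(`exists_ann`), so `N` is contained in a normal form of `A_b` (BLK) and independent; for a good
block `X` and `ζ = ∑_{F ∈ N} om A F + ∑_{Z} η_Z` (`Z` good blocks `≠ X`, `η_Z ∈ A[Z]`) the `X`-part of
`ζ` is `0`: COMP for the `η_Z`, ADD and BDIS for the `om A F` (all killed by `b`).
Suppose `GB A ∪ N` is dependent; take a minimal finite set `{X_1..X_k}` of good blocks with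
`{X_i} ∪ N` dependent; `k ≥ 1`; there is a relation `x_1 = ∑_{i≥2} x_i + ∑_{F∈N} f_F`, `x_1 ≠ 0`,
with `{X_2..X_k} ∪ N` independent.  By GLUE + BFULL choose `a`, `η_i ∈ A[X_i]` with `η_i a = x_i`
(`i ≥ 2`) and `η_F ∈ A[F]` with `η_F a = f_F`, so `ζ a = x_1 ∈ X_1` for `ζ = ∑ η_i + ∑ η_F`, hence the
`X_1`-part of `ζ` is nonzero (DEC), contradiction. -/
def S_FIND : Prop := ∀ (V : Type) [AddCommGroup V] [Module (ZMod 2) V] [Finite V] (A : Fam V)
  (N : Set (DSub V)), FW A → N ⊆ BB A → sSup N ≠ ⊤ → sSupIndep (GB A ∪ N)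

/-- FDEC. In case A every member is a member of the good part plus a sum over a non-spanning set of
bad blocks.  Proof: degenerate `ζ` (kills `b ≠ 0`): components of a normal form `s` of `A_b`; each
`Z ∈ s` is either a local block or inside a maximal cone (a cone of `A_b` is a cone of `A`; a local
component `sp ω` of `A_b` not contained in a cone of `A` is a local block of `A`); so the `Z`-part of
`ζ` lies in `A[X]` for a good block `X`, or `Z` is a bad block and the part is `0` or `om A Z`.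
Nondegenerate `ζ`: then `n` is even (EVEN), so a cone exists, hence a maximal cone `M`, a good block
(A4), and `ζ + π_M(ζ)` is degenerate (support disjoint from `M`). -/
def S_FDEC : Prop := ∀ (V : Type) [AddCommGroup V] [Module (ZMod 2) V] [Finite V] (A : Fam V)
  (ζ : Frm V), FW A → ζ ∈ A → ∃ N : Finset (DSub V), (N : Set (DSub V)) ⊆ BB A ∧
    sSup (N : Set (DSub V)) ≠ ⊤ ∧ ∃ γ ∈ ⨆ X ∈ GB A, res A X, ζ = γ + ∑ F ∈ N, om A F

/-- FUNI. Uniqueness in FDEC.  Proof: `b ≠ 0` with `sSup N ≤ ann b`; all `om A F` (`F ∈ N`) are in `A_b`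
with `X`-part `0` for good `X` (BDIS, ADD), so `π_X(γ + ∑_N om) = γ_X` by COMP (`γ = ∑ γ_X`); the
same for `N'`; hence `γ = γ'` (`GB A` is independent by FIND) and `∑_N om = ∑_{N'} om = ζ`, so
`sSup N = sp ζ = sSup N'` and, in a normal form of `A_b` containing `N ∪ N'` (BLK), uniqueness of
components gives `N = N'`. -/
def S_FUNI : Prop := ∀ (V : Type) [AddCommGroup V] [Module (ZMod 2) V] [Finite V] (A : Fam V)
  (N N' : Finset (DSub V)) (γ γ' : Frm V), FW A → (N : Set (DSub V)) ⊆ BB A →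
    (N' : Set (DSub V)) ⊆ BB A → sSup (N : Set (DSub V)) ≠ ⊤ → sSup (N' : Set (DSub V)) ≠ ⊤ →
    γ ∈ (⨆ X ∈ GB A, res A X) → γ' ∈ (⨆ X ∈ GB A, res A X) →
    γ + ∑ F ∈ N, om A F = γ' + ∑ F ∈ N', om A F → γ = γ' ∧ N = N'

/-- ELI. Independent sums of families of elementary type. -/
def S_ELI : Prop := ∀ (V : Type) [AddCommGroup V] [Module (ZMod 2) V] [Finite V] (A : Fam V)
  (s : Set (DSub V)), sSupIndep s → (∀ X ∈ s, El (res A X)) → A = (⨆ X ∈ s, res A X) → El A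

/-- F5. In case A the bad blocks span.  Proof: otherwise `s = GB A ∪ BB A` is independent (FIND,
`N = BB A`) and `A = ⨆_{X ∈ s} A[X]` (FDEC), `A[X]` is `El` for `X ≠ ⊤` (BNT), ELI: `El A`. -/
def S_F5 : Prop := ∀ (V : Type) [AddCommGroup V] [Module (ZMod 2) V] [Finite V] (A : Fam V),
  FW A → sSup (BB A) = ⊤

/-- NG. In case A, for each bad block `B` there is `c ≠ 0` killing many bad blocks.
Proof.  `B` is local, `ω_B = om A B`; not good: `f ∈ B`, `f = ζ₀ c`, `f ∉ i_c A[B]`; `f, c ≠ 0`.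
`P = PP A`; `B` is disjoint from `P` (FIND with `N = {B}`, BNT).  Let `C = {a : ω_B a = f, all good blocks
vanish at a}`; nonempty, a coset of `(B + P)^⊥`, `|C| = 2^(n - dim B - dim P)`.  For `a ∈ C` link
`ω_B a = f = ζ₀ c`: `ζ_a a = ζ_a c = f`.  Claim `ker ζ_a ⊓ B^⊥ = 0`: if `b` is in it, `b ≠ 0`, `B` is a
component of a normal form of `A_b` (BLK), `ζ_a = ε ω_B + ζ'`, `sp ζ'` disjoint from `B` (SPLIT), so
`ζ_a c = f ∈ B` gives `ε ω_B c = f`, contradiction.  For `a, a' ∈ C`: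
`ζ_a + ζ_{a'}` kills `c`.  Let `A_g = ⨆_{X ∈ GB A} A[X]`.  Members of `A_c` modulo `A_g`: every `ρ ∈ A_c`
is `γ + ∑_{F ∈ N} om A F`, `γ ∈ A_g`, `N ⊆ BBL A c` (components of a normal form of `A_c`, as in FDEC), so
there are at most `2^(ncard (BBL A c))` classes.  If `ζ_a + ζ_{a'} = γ ∈ A_g` then `γ a' = 0` (`a'` is
killed by all good blocks), so `ζ_a a' = f = ζ_a a`, `ζ_a (a + a') = 0` and `ω_B (a + a') = 0`, so
`a = a'` by the claim.  So `a ↦` class of `ζ_a + ζ_{a_0}` is injective: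
`2^(n - dim B - dim P) ≤ 2^(ncard (BBL A c))`. -/
def S_NG : Prop := ∀ (V : Type) [AddCommGroup V] [Module (ZMod 2) V] [Finite V] (A : Fam V)
  (B : DSub V), FW A → B ∈ BB A → ∃ c : V, c ≠ 0 ∧
    finrank (ZMod 2) V ≤ finrank (ZMod 2) B + finrank (ZMod 2) (PP A) + (BBL A c).ncard

/-- BEV. Dimensions of local blocks: even and positive; bad blocks are local (A4); without cones the
sum of the good blocks has even dimension (case A). -/
def S_BEV : Prop := ∀ (V : Type) [AddCommGroup V] [Module (ZMod 2) V] [Finite V] (A : Fam V),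
  (AltFam A → ∀ F, LocBlock A F → Even (finrank (ZMod 2) F) ∧ 2 ≤ finrank (ZMod 2) F) ∧
  (MC A → ∀ F ∈ BB A, LocBlock A F) ∧
  (FW A → (∀ Z, ¬ IsCone A Z) → Even (finrank (ZMod 2) (PP A)))

/-- C1A. Case (1a): all bad blocks are complements of `P = PP A`; a cone exists.
Proof.  `P` and each bad block are independent; two different bad blocks span `V*` (else FIND:
dimension > n).  By F5 there are bad blocks and at least two of them (BNT).  Let `M` be a maximal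
cone, apex `p`, `P₁` = sum of the other good blocks.  Fix a bad `B'`; `V* = B' ⊕ P₁ ⊕ M`.  Claim: every
bad block `B ≤ B' ⊕ P₁`; then `sSup (BB A) ≠ ⊤`, contradiction to F5.  Proof of the claim, `B ≠ B'`: for
`h ∈ B`, `h = h' + ∑_X ψ_X(h)` (`h' ∈ B'`, `ψ_X(h) ∈ X`).  Let `0 ≠ h ∈ B`, so `h' ≠ 0`.  For each
`λ ∈ V` such that for every good `X` some `η_X ∈ A[X]` has `η_X λ = ψ_X(h)`, let `a` agree with `λ`
on `P` and `ω_{B'} a = h'`, and `c` agree with `λ` on `P` and `ω_B c = h` (GLUE).  Then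
`(ω_{B'} + ∑ η_X) a = h = ω_B c`; link: `ζ a = ζ c = h`.  FDEC: `ζ = γ₁ + om B₁` (a non-spanning set of
bad blocks has at most one element; not `ζ = γ₁` since `h ∉ P`), and
`om B₁ (a+c) = γ₁ (a+c) ∈ B₁ ⊓ P = ⊥`; as `a + c` is killed by `P` and by `B₁` (`sp (om B₁) = B₁`) it is
`0`: `a = c`.  Consequently for two such `λ, λ'` the element `v = a_λ + a_{λ'} = c_λ + c_{λ'}` is killed by
`B'` and by `B`, and agrees with `λ + λ'` on `P`; taking `λ, λ'` equal on `P₁`: for `u = λ+λ'` with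
`λ, λ'` arbitrary on `M` subject to `ψ_M(h) ∈ i_λ A[M]`, `ψ_M(g)(u) = 0` for all `g ∈ B`
(`g = g' + ∑ ψ_X(g)`, `g(v) = 0`, `g'(v) = 0`, `v = 0` on `P₁`).
If `ψ_M(h) = 0` for some `h ≠ 0` all `λ` are allowed on `M`, so `ψ_M = 0`.  Otherwise `ψ_M` is injective
on `B` (dim ≥ 2): if `ψ_M(h) = p` then all `λ` with `p λ = 0`, `λ ≠ 0` on `M` are allowed, so
`ψ_M(B) ≤ ⟨p⟩`, contradiction; so `p ∉ ψ_M(B)`; for `g₀ = ψ_M(h) ∉ ⟨p⟩` all `λ` with `p λ = 1`,
`g₀ λ = 0` are allowed, so `ψ_M(B) ≤ ⟨p, g₀⟩`, of dimension 2, so `= ⟨p,g₀⟩ ∋ p`, contradiction. -/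
def S_C1A : Prop := ∀ (V : Type) [AddCommGroup V] [Module (ZMod 2) V] [Finite V] (A : Fam V),
  FW A → (∃ Z : DSub V, IsCone A Z) →
  (∀ B ∈ BB A, finrank (ZMod 2) B + finrank (ZMod 2) (PP A) = finrank (ZMod 2) V) → False

/-- C1B. Case (1b): `dim B + dim P + 1 = n` for all bad blocks.
Proof.  `m = dim B` (even, same for all), `d = dim P`, `n = m + d + 1 ≥ 4`.  `(B+P)^⊥ = {0, c_B}`.  Two
different bad blocks span `V*` (else FIND: `2m + d ≤ n`, i.e. `m ≤ 1`), so `n ≤ 2m`, `d ≤ m - 1`; F5/BNT: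
at least two bad blocks; different bad `B, B'` have `B^⊥ ⊓ B'^⊥ = 0`, so `c_B ≠ c_{B'}`.
`U = P^⊥` (dim `m+1`) kills the good part `A_g = ⨆ res A X`.  By FDEC every member is `γ` or
`γ + om B` (unique, FUNI); so `|A| = |A_g| (1 + #BB)`, `#BB = 2^D - 1`.  On `U` every `om B` has radical
`{0, c_B}`.  Let `𝒞 = {c_B}`; `#𝒞 = #BB = 2^D - 1`, `𝒞 ⊆ U ∖ 0`, so `D ≤ m + 1`.
Claim: `B' ≠ B`, `b ∈ U ∖ {0, c_B}`, `om B b c_{B'} = 0` ⇒ `b ∈ 𝒞`.  `f = om B b ∈ B`, `f ≠ 0`,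
`f(c_{B'}) = 0` so `f = f' + g ∈ B' ⊕ P`, `f' ≠ 0` (`B ⊓ P = ⊥`).  Choose `a`, `γ ∈ A_g` with
`om B' a = f'`, `γ a = g` (GLUE, BFULL; `a` may be changed by `c_{B'}`).  Link `(om B' + γ) a = f = om B b`:
`ζ a = ζ b = f`, `ζ = γ₁ + om B₁` (`f ≠ 0` and `γ₁ b = 0`), `om B₁ b = f = om B b`.  If `B₁ ≠ B`:
`om B + om B₁ = γ₂ + om B₂`, `om B₂ b = 0`, so `b = c_{B₂}`.  If `B₁ = B`: `om B a + f = γ₁ a ∈ B ⊓ P`,
so `om B a = f`.  If `b ∉ 𝒞` this holds for `a` and for `a + c_{B'}`, so `om B c_{B'} = 0`, `c_{B'} ∈ U ⊓ B^⊥`,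
`c_{B'} = c_B`, contradiction.
So `𝒞 ⊇ {b ∈ U : om B b c_{B'} = 0} ∖ 0` for `B ≠ B'`, a hyperplane of `U`: `2^D - 1 ≥ 2^m - 1`.
`D = m`: `𝒞 ∪ 0 = H` is that hyperplane for all pairs, so all `om B` vanish on `H × H`, hence the rank
`m` of `om B` on `U` is ≤ 2, `m = 2`, `d ≤ 1`; `d = dim P`, `P` a sum of blocks of dimension ≥ 2, so `d = 0`,
`n = 3`, contradiction.
`D = m + 1`: the sets `B^⊥ ∖ 0` (`2^(d+1) - 1` elements) are disjoint:
`(2^(m+1) - 1)(2^(d+1) - 1) ≤ 2^(m+1+d) - 1`, so `d = 0`, `P = ⊥`, `A_g = 0`, `|A| = 2^n`, for each `b ≠ 0`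
exactly one nonzero member kills `b` (`𝒞 = V ∖ 0`), so `|i_b A| = 2^(n-1)`, `b` satisfies the hypothesis of
RIG, contradiction. -/
def S_C1B : Prop := ∀ (V : Type) [AddCommGroup V] [Module (ZMod 2) V] [Finite V] (A : Fam V),
  FW A →
  (∀ B ∈ BB A, finrank (ZMod 2) B + finrank (ZMod 2) (PP A) + 1 = finrank (ZMod 2) V) → False

/-- C2. Case (2): `n = dim P + 4`, `n ≥ 7`, a bad block of dimension 2.
Proof.  Bad blocks are independent of `P`, so have dimension 2 or 4 (even, BEV).  Three different bad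
blocks of dimension 2 do not span (dim ≤ 6), so they are independent with `P` (FIND): 6 ≤ 4; a bad
block of dimension 2 and one of dimension 4 do not span and are independent with `P`: 6 ≤ 4.  So there
are at most two bad blocks, of dimension 2, and they do not span: contradiction to F5. -/
def S_C2 : Prop := ∀ (V : Type) [AddCommGroup V] [Module (ZMod 2) V] [Finite V] (A : Fam V),
  FW A → finrank (ZMod 2) V = finrank (ZMod 2) (PP A) + 4 → 7 ≤ finrank (ZMod 2) V →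
  (∃ B ∈ BB A, finrank (ZMod 2) B = 2) → False

/-- FWF. Case A is impossible.
Proof.  F5: a bad block exists (`n ≥ 4 > 0`).  `m` = minimal dimension of a bad block, `n' = n - dim P`.
By FIND every bad block has `dim ≤ n'`.  NG for `B` of dimension `m`: `c ≠ 0`, `k = ncard (BBL A c) ≥ n' - m`;
`BBL A c` does not span (`⊆ ann c`), so by FIND, IDIM: `k m ≤ n'`.  With `m ≥ 2` even:
`m (n' - m) ≤ n'` gives `n' = m` or `n' = m + 1` or (`m = 2`, `n' = 4`).
`n' = m`: all bad blocks have dimension `n'`: if a cone exists C1A; else `n` is odd, but `dim P` even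
(BEV) and `m` even.  `n' = m + 1`: all bad blocks have dimension `m` (even, ≤ m+1): C1B.
`n' = 4`, `m = 2`: if a cone exists, `dim P ≥ 3` (maximal cones are good blocks) so `n ≥ 7`, C2; else
`n` odd contradicts parity. -/
def S_FWF : Prop := ∀ (V : Type) [AddCommGroup V] [Module (ZMod 2) V] [Finite V] (A : Fam V),
  FW A → False

/-! ### case B -/

/-- CB1. In case B the blocks killed by `b ≠ 0` are the components of `A_b`.
Proof: normal form `s` of `A_b`; a cone component would be a cone of `A`; a local component of `A_b` is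
a local block of `A` (no cones); conversely BLK.  Each `A[F] = {0, om A F}`, so
`finrank A_b = ncard`.  `sSup (BL A b) ≤ ann b` has even dimension (EVEN, IDIM) and `n` is even. -/
def S_CB1 : Prop := ∀ (V : Type) [AddCommGroup V] [Module (ZMod 2) V] [Finite V] (A : Fam V)
  (b : V), CB A → b ≠ 0 → Comps (res A (ann b)) (BL A b) ∧
    finrank (ZMod 2) (res A (ann b)) = (BL A b).ncard ∧
    finrank (ZMod 2) (sSup (BL A b) : DSub V) + 2 ≤ finrank (ZMod 2) V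

/-- OM. Basic facts on `om`. -/
def S_OM : Prop := ∀ (V : Type) [AddCommGroup V] [Module (ZMod 2) V] [Finite V] (A : Fam V)
  (F : DSub V), AltFam A → LocBlock A F → om A F ∈ A ∧ om A F ≠ 0 ∧ sp (om A F) = F ∧
    (∀ η ∈ res A F, η = 0 ∨ η = om A F) ∧ Even (finrank (ZMod 2) F) ∧ 2 ≤ finrank (ZMod 2) F

/-- L2. If no nonzero member has a kernel then `A` is spanned by one form.
Proof.  Let `ω, ω' ∈ A` be nonzero; they are bijective (`V → Dl V` injective, same dimension).  If `V = 0`,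
all forms are `0`.  Take `f ≠ 0`, `ω a = f = ω' a'`.  If `a ≠ a'` link: `ζ a = ζ a' = f`, `ζ (a + a') = 0`,
so `ζ = 0`, `f = 0`.  So `a = a'`, `(ω + ω') a = 0`, `ω = ω'`. -/
def S_L2 : Prop := ∀ (V : Type) [AddCommGroup V] [Module (ZMod 2) V] [Finite V] (A : Fam V),
  AltFam A → Linked A → (∀ b : V, b ≠ 0 → ∀ ω ∈ A, ω b = 0 → ω = 0) → El A

/-- MD. Minimal dependent sets of blocks in case B.
Proof.  `D` is finite; a nontrivial relation `∑_{Z ∈ D} x_Z = 0`, all `x_Z ≠ 0` by minimality.  If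
`sSup (D ∖ {X}) ≤ ann b`, `b ≠ 0`: choose `a` with `om A Z a = x_Z` for `Z ∈ D ∖ {X}` (GLUE;
`Z = sp (om A Z)`), `ζ = ∑_{Z ∈ D ∖ X} om A Z ∈ A_b`, `ζ a = x_X ∈ X`; `X` good: the `X`-part `π` of `ζ`
is nonzero (DEC), so `π = om A X` and `X = sp π ≤ sp ζ ≤ ann b`; so `D ⊆ BL A b`, which is independent
(CB1), contradiction. -/
def S_MD : Prop := ∀ (V : Type) [AddCommGroup V] [Module (ZMod 2) V] [Finite V] (A : Fam V)
  (D : Set (DSub V)) (X : DSub V), CB A → (∀ Z ∈ D, Block A Z) → ¬ sSupIndep D →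
  (∀ D' : Set (DSub V), D' ⊆ D → D' ≠ D → sSupIndep D') → X ∈ D → Good A X → sSup (D \ {X}) = ⊤

/-- NGC. Case B version of NG: a bad block `F` (local) has `c ≠ 0` with
`n ≤ dim F + ncard (BL A c)`.  Proof: `f ∈ F`, `f = ζ₀ c`, `f ∉ i_c A[F]`.  `C = {a : om A F a = f}`,
`|C| = 2^(n - dim F)`.  For `a ∈ C` link: `ζ_a a = ζ_a c = f`; `ker ζ_a ⊓ F^⊥ = 0` (as in NG, with CB1 and
SPLIT).  `ζ_a = ζ_{a'}` implies `a + a' ∈ ker ζ_a ⊓ F^⊥`, `a = a'`.  `ζ_a + ζ_{a'} ∈ A_c`, so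
`|C| ≤ |A_c| = 2^(ncard (BL A c))` (CB1). -/
def S_NGC : Prop := ∀ (V : Type) [AddCommGroup V] [Module (ZMod 2) V] [Finite V] (A : Fam V)
  (F : DSub V), CB A → F ∈ BB A → ∃ c : V, c ≠ 0 ∧
    finrank (ZMod 2) V ≤ finrank (ZMod 2) F + (BL A c).ncard

/-- HH. Two good blocks, `h = x₁ + x₂ = ζ a` with `om A X₁ a ≠ x₁`.
Proof.  `X₁ ⊓ X₂ = ⊥` (BDIS).  `C = {v : om A X₁ v = x₁, om A X₂ v = x₂}` is a coset of `(X₁+X₂)^⊥`,
`|C| = 2^(n - dim X₁ - dim X₂)`.  For `v ∈ C` link `(om X₁ + om X₂) v = h = ζ a`: `ζ_v v = ζ_v a = h`.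
`ker ζ_v ⊓ (X₁+X₂)^⊥ = 0`: if `b ≠ 0` is in it, `X₁, X₂ ∈ BL A b`, the components of `A_b` (CB1), so
`ζ_v = ε₁ om X₁ + ε₂ om X₂ + ζ''` with `sp ζ''` independent of `X₁ ⊕ X₂` (SPLIT), `ζ_v a = x₁ + x₂` gives
`ε₁ om X₁ a = x₁ ≠ 0`, so `om X₁ a = x₁`, contradiction.  So `v ↦ ζ_v` is injective and all
`ζ_v + ζ_{v'}` kill `a`: `|C| ≤ |A_a| = 2^(ncard (BL A a))` (`a ≠ 0` as `h ≠ 0`). -/
def S_HH : Prop := ∀ (V : Type) [AddCommGroup V] [Module (ZMod 2) V] [Finite V] (A : Fam V)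
  (X₁ X₂ : DSub V) (x₁ x₂ : Dl V) (ζ : Frm V) (a : V), CB A → X₁ ∈ GB A → X₂ ∈ GB A → X₁ ≠ X₂ →
  x₁ ∈ X₁ → x₂ ∈ X₂ → x₁ ≠ 0 → ζ ∈ A → ζ a = x₁ + x₂ → om A X₁ a ≠ x₁ →
  finrank (ZMod 2) V ≤ finrank (ZMod 2) X₁ + finrank (ZMod 2) X₂ + (BL A a).ncard

/-- SIX. The case `n = 6`.
Proof.  Blocks are local of dimension 2 or 4 (even, ≠ ⊤).  `ncard (BL A b) ≤ 2`, `|A_b| ≤ 4` for `b ≠ 0` (CB1:
sum of dimensions ≤ 4).  No member `η` with `h ∈ sp η` has rank 2 (`sp η` would be a block: for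
`dim sp η = 2`, `η` is primitive).  If `η ≠ η' ∈ A` both have rank 4 then `ker η ⊓ ker η' = 0` (else
both in `A_b` = sums over `BL A b` with total dimension ≤ 4, at most one member of rank 4).
`Γ = {v : ∃ ω ∈ A, ω v = h}`; for `v ∈ Γ` (`v ≠ 0`) `Z_v = {η ∈ A : η v = h, ker η ≠ 0}`; its members
have rank 4, `|ker η| = 4`; `Z_v ⊆` coset of `A_v`, so `|Z_v| ≤ 4`.  For `v ≠ v' ∈ Γ` link: some
`η ∈ Z_v ∩ Z_{v'}` with `v + v' ∈ ker η`; conversely `v + ker η ⊆ Γ`.  So `Γ ∖ {v}` is the disjoint union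
of `(v + ker η) ∖ {v}`, `η ∈ Z_v`: `|Γ| = 1 + 3 |Z_v|`.  `a ∈ Γ`; the four points `w` of `v₀ + ker ζ₀`
give four members `η_w ∈ Z_a` (`η_w a = η_w w = h`), different: if `η_w = η_{w'}`, `w + w' ∈ ker η_w ⊓ ker ζ₀`,
and `η_w ≠ ζ₀` as `ζ₀ a ≠ h`, so `w = w'`.  So `|Z_a| = 4`, `|Γ| = 13`, `|Z_v| = 4` for all `v ∈ Γ`.
Then `∑_{w ∈ Γ} w = v + ∑_{η ∈ Z_v} ∑_{r ∈ ker η ∖ 0} (v + r) = v + 4 · (3 v + 0) = v` for every `v ∈ Γ`,
contradiction with `|Γ| = 13`. -/
def S_SIX : Prop := ∀ (V : Type) [AddCommGroup V] [Module (ZMod 2) V] [Finite V] (A : Fam V)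
  (ζ₀ ζ₁ : Frm V) (v₀ a : V) (h : Dl V), CB A → finrank (ZMod 2) V = 6 → ζ₀ ∈ A → ζ₁ ∈ A →
  finrank (ZMod 2) (sp ζ₀) = 4 → ζ₀ v₀ = h → ζ₁ a = h → ζ₀ a ≠ h → h ≠ 0 →
  (∀ X : DSub V, Block A X → finrank (ZMod 2) X = 2 → h ∉ X) → False

/-- BETA. Case B, a bad block `F` with `c ≠ 0` as in NGC and a set `N` of good blocks in `BL A c`
dependent with `F`.
Proof.  Shrink: `N` minimal with `{F} ∪ N` dependent; then `D = {F} ∪ N` is minimal dependent
(`N` alone is independent, in `BL A c`); `t = |N| ≥ 2` (BDIS).  MD: `sSup (D ∖ {X}) = ⊤` for `X ∈ N`.  So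
(IDIM) `dim F + (sum of dims of N ∖ X) = n` for all `X ∈ N`: all `X ∈ N` have the same dimension `e`
(even ≥ 2), `(t-1) e = g := n - dim F`.  Every good block `X` has dimension `e`: for `X ∉ N` let `X_t ∈ N`,
`{F} ∪ (N ∖ X_t) ∪ {X}` is dependent; a minimal dependent subset `D'` contains `X`, MD:
`sSup (D' ∖ X) = ⊤`, so `D' ∖ X = {F} ∪ (N ∖ X_t)` (independent spanning set), and MD for another
`X_j ∈ N ∖ X_t` gives `dim X = dim X_j`.
Numerics: `g ≤ ncard (BL A c)`, `2 ncard + 2 ≤ n` (CB1, dims ≥ 2), so `2 g + 2 ≤ n`.  All blocks have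
dimension ≥ e: bad blocks `F'` have `2 (n - dim F') + 2 ≤ n` by NGC, so `dim F' ≥ n/2 + 1 ≥ e`.
Take `X₁ ≠ X₂ ∈ N`, nonzero `x_i ∈ X_i`, `h = x₁ + x₂`, `ζ = om F + ∑_{X ∈ N ∖ X₂} om X`: its support is `⊤`
so `ζ a = h` for some `a`.  `om X₁ a ≠ x₁`: otherwise, comparing components in
`⊤ = F ⊕ ⨁_{N ∖ X₂} X`, `x₂ = h + x₁ ∈ F ⊕ ⨁_{N ∖ {X₁,X₂}}`, contradicting independence of `D ∖ {X₁}`.
HH: `n ≤ 2 e + ncard (BL A a)`, and `e · ncard (BL A a) + 2 ≤ n` (CB1, `a ≠ 0`).  With `e ≥ 2`: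
`(n - 2e) e ≤ n - 2` gives `n ≤ 2e + 2`; and `n ≥ 2g + 2 = 2 (t-1) e + 2`, so `t = 2`, `n = 2e + 2`, `g = e`;
`e ≤ ncard (BL A c)`, `e · ncard (BL A c) ≤ n - 2 = 2e`, so `e = 2`, `n = 6`.
SIX with `ζ₀ = om X₁ + om X₂` (rank 4), `v₀` with `om X_i v₀ = x_i`, `ζ₁ = ζ`: `ζ₀ a ≠ h`, else `om X₁ a = x₁`;
`h` is in no block `X` of dimension 2: such `X` is good (bad ones have dimension ≥ 4), `X ≠ X₁, X₂`
(disjoint), `{X, X₁, X₂}` would be minimal dependent (BDIS), MD: `X₁ ⊔ X₂ = ⊤`, dimension 4 ≠ 6. -/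
def S_BETA : Prop := ∀ (V : Type) [AddCommGroup V] [Module (ZMod 2) V] [Finite V] (A : Fam V)
  (F : DSub V) (c : V) (N : Set (DSub V)), CB A → F ∈ BB A → c ≠ 0 →
  finrank (ZMod 2) V ≤ finrank (ZMod 2) F + (BL A c).ncard → N ⊆ GB A → N ⊆ BL A c →
  ¬ sSupIndep (insert F N) → False

/-- NGF. Case B: no bad blocks.
Proof.  Let `F` be bad, `c` as in NGC, `g = n - dim F` (even, ≥ 2 by BNT), `ν = ncard (BL A c) ≥ g`,
`2ν + 2 ≤ n` (CB1).  If some set of good blocks in `BL A c` is dependent with `F`: BETA.  Otherwise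
let `G` = good blocks in `BL A c`: `{F} ∪ G` independent.  All bad blocks have dimension `≥ n/2 + 1`
(NGC and CB1 as above), `BL A c` is independent with total dimension `≤ n - 2` so it has at most one bad
block; if it has none then `G = BL A c`, `dim F + 2 ν ≤ n`, `2ν ≤ g ≤ ν`, `ν = 0 = g`, contradiction.  So one bad
block `H ∈ BL A c`, `|G| = ν - 1`, `2 (ν - 1) ≤ n - dim F = g ≤ ν`, so `ν ≤ 2`, `ν = g = 2`, `G = {X₁}`,
`dim X₁ = 2` (`dim F + dim X₁ ≤ n`), `dim H + 2 ≤ n - 2`, so `g_H = n - dim H ≥ 4`.  The same argument for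
`H` (with its own `c`) in the second case would give `g_H = 2`; so the first case (BETA) holds for `H`. -/
def S_NGF : Prop := ∀ (V : Type) [AddCommGroup V] [Module (ZMod 2) V] [Finite V] (A : Fam V),
  CB A → ∀ F : DSub V, F ∉ BB A

/-- AGI. Case B, the blocks are not independent (given all good).
Proof.  Suppose the set `s` of all blocks is independent.  `s` is nonempty (else L2: `A_b = 0` for
all `b ≠ 0` by CB1).  Every degenerate member is a sum of `om`'s (CB1); a nondegenerate member `ζ`: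
`ζ + π_X(ζ)` (`X` any block, good) is degenerate.  So `A = ⨆_{X ∈ s} A[X]`, ELI. -/
def S_AGI : Prop := ∀ (V : Type) [AddCommGroup V] [Module (ZMod 2) V] [Finite V] (A : Fam V),
  CB A → (∀ X, Block A X → Good A X) → ¬ sSupIndep {X | Block A X}

/-- AGB. Case B, all good: basis structure.
Proof.  Let `D` be a minimal dependent set of blocks (AGI), `p = |D| - 1`.  MD: `sSup (D ∖ X) = ⊤` for all
`X ∈ D`, so all `X ∈ D` have the same dimension `e` and `n = e p`; `p ≥ 2` (BNT: blocks are not `⊤`; two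
different blocks are disjoint, BDIS).  For a basis `𝔅` (set of `p` blocks, independent, spanning) and a
block `X ∉ 𝔅`: `𝔅 ∪ {X}` is dependent, a minimal dependent subset contains `X`, removing `X` spans, so it is
`𝔅 ∪ {X}`; hence `dim X = e` and every `p`-subset of `𝔅 ∪ {X}` is a basis.  Exchange: any `p` different
blocks form a basis. -/
def S_AGB : Prop := ∀ (V : Type) [AddCommGroup V] [Module (ZMod 2) V] [Finite V] (A : Fam V),
  CB A → (∀ X, Block A X → Good A X) → ∃ e p : ℕ, 2 ≤ e ∧ Even e ∧ 2 ≤ p ∧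
    finrank (ZMod 2) V = e * p ∧ (∀ X, Block A X → finrank (ZMod 2) X = e) ∧
    p + 1 ≤ {X | Block A X}.ncard ∧
    ∀ T : Finset (DSub V), (∀ X ∈ T, Block A X) → T.card = p →
      sSupIndep (T : Set (DSub V)) ∧ sSup (T : Set (DSub V)) = ⊤

/-- AGP. `p` divides the number of blocks.
Proof.  Fix `p` blocks `T` and `ζ = ∑_{T} om`, nondegenerate (`sp ζ = ⊤`).  For every block `X`, the `X`-part
of `ζ` is nonzero (else `sp ζ ⊓ X = ⊥`), so it is `om X`, and `ζ + om X` is degenerate (its support is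
disjoint from `X`), `= ∑_{N} om`, `N ⊆ BL A b` (CB1), `sp = sSup N` of dimension `n - e` (`sp ζ = X ⊕ sp(ζ+om X)`)
so `|N| = p - 1`, `X ∉ N`; `N_X = N ∪ {X}` is a `p`-set with `ζ = ∑_{N_X} om`.  If `Y ∈ N_X ⊓ N_{X'}`:
`ζ + om Y = ∑_{N_X ∖ Y} om = ∑_{N_{X'} ∖ Y} om`, supports `sSup (N_X ∖ Y) = sSup (N_{X'} ∖ Y) ≤ ann b`, all in
`BL A b`, independent, so `N_X = N_{X'}`.  So the `N_X` partition the set of blocks into `p`-sets. -/
def S_AGP : Prop := ∀ (V : Type) [AddCommGroup V] [Module (ZMod 2) V] [Finite V] (A : Fam V)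
  (e p : ℕ), CB A → (∀ X, Block A X → Good A X) → 2 ≤ e → 2 ≤ p →
    finrank (ZMod 2) V = e * p → (∀ X, Block A X → finrank (ZMod 2) X = e) →
    p + 1 ≤ {X | Block A X}.ncard →
    (∀ T : Finset (DSub V), (∀ X ∈ T, Block A X) → T.card = p →
      sSupIndep (T : Set (DSub V)) ∧ sSup (T : Set (DSub V)) = ⊤) → p ∣ {X | Block A X}.ncard

/-- AG2. The case `p = 2`.
Proof.  Any two blocks are complementary.  Every `h ≠ 0` is in a block: three blocks `X₁, X₂, X₃`;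
`h = x₁ + x₂ = (om X₁ + om X₂) v`, `h = x₁' + x₃' = (om X₁ + om X₃) v'` (these forms are bijective).
`v ≠ v'`: else `(om X₂ + om X₃) v = 0`, nondegenerate, `v = 0`, `h = 0`.  Link: `ζ v = ζ v' = h`, `ζ` kills
`v + v'`, so `ζ = ∑_{N} om`, `N ⊆ BL A (v+v')` (CB1), `|N| ≤ 1` (two blocks span), so `ζ = om X`, `h ∈ X`.
So the blocks partition `V* ∖ 0`: `m (2^e - 1) = 2^(2e) - 1`, `m = 2^e + 1` is odd, but `2 ∣ m` (AGP). -/
def S_AG2 : Prop := ∀ (V : Type) [AddCommGroup V] [Module (ZMod 2) V] [Finite V] (A : Fam V)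
  (e : ℕ), CB A → (∀ X, Block A X → Good A X) → 2 ≤ e →
    finrank (ZMod 2) V = e * 2 → (∀ X, Block A X → finrank (ZMod 2) X = e) →
    3 ≤ {X | Block A X}.ncard → 2 ∣ {X | Block A X}.ncard →
    (∀ T : Finset (DSub V), (∀ X ∈ T, Block A X) → T.card = 2 →
      sSupIndep (T : Set (DSub V)) ∧ sSup (T : Set (DSub V)) = ⊤) → False

/-- AG3. The case `p ≥ 3`.
Proof.  Different blocks `X₁, …, X_{p+1}`, nonzero `x₁ ∈ X₁`, `x₂ ∈ X₂`, `h = x₁ + x₂`,
`ζ = ∑_{i ≠ 2} om X_i` (p blocks, support `⊤`), `ζ a = h`.  `om X₁ a ≠ x₁`: otherwise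
`x₂ = h + x₁ ∈ ⨁_{i ≠ 1,2} X_i`, but `{X_i : i ≠ 1}` is independent.  HH: `n ≤ 2e + ncard (BL A a)`, and
`ncard (BL A a) ≤ p - 1` (`p` blocks span).  So `e (p - 2) ≤ p - 1`, with `e ≥ 2`, `p ≥ 3`: `e = 2`, `p = 3`, `n = 6`
(`e(p-2) ≤ (p-2) + 1`, so `(e-1)(p-2) ≤ 1`).  SIX with `ζ₀ = om X₁ + om X₂`; `h` is in no block `X`: any three
blocks are independent. -/
def S_AG3 : Prop := ∀ (V : Type) [AddCommGroup V] [Module (ZMod 2) V] [Finite V] (A : Fam V)
  (e p : ℕ), CB A → (∀ X, Block A X → Good A X) → 2 ≤ e → 3 ≤ p →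
    finrank (ZMod 2) V = e * p → (∀ X, Block A X → finrank (ZMod 2) X = e) →
    p + 1 ≤ {X | Block A X}.ncard →
    (∀ T : Finset (DSub V), (∀ X ∈ T, Block A X) → T.card = p →
      sSupIndep (T : Set (DSub V)) ∧ sSup (T : Set (DSub V)) = ⊤) → False

/-- CBF. Case B is impossible: NGF (all blocks are good), AGB, AGP, AG2 / AG3. -/
def S_CBF : Prop := ∀ (V : Type) [AddCommGroup V] [Module (ZMod 2) V] [Finite V] (A : Fam V),
  CB A → False

/-- N3. No minimal configuration with `n ≤ 3`.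
Proof.  No `x ≠ 0` satisfies the hypothesis of RIG.  `supp A = ⊤`: `i_a A ≠ 0` for `a ≠ 0`, `i_a A ≤ ann a` of
dimension `n - 1`; so `n = 3` and `dim i_a A = 1` for all `a ≠ 0` (for `n ≤ 2` every `x ≠ 0` is as in RIG;
`n = 0`: `A = ⊥`).  A nonzero form on `V` has kernel of order 2 (`n = 3`, even rank), `dim A_a ≤ 1` (two
different nonzero forms with the same kernel `{0,a}` do not exist: alternating forms on the
2-dimensional `V/a`), `dim A = 1 + dim A_a ≤ 2`.  If `dim A = 2` then `A_a ≠ 0` for all 7 elements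
`a ≠ 0`, but `A` has 3 nonzero members each with one nonzero kernel element.  If `dim A ≤ 1`, `El A`. -/
def S_N3 : Prop := ∀ (V : Type) [AddCommGroup V] [Module (ZMod 2) V] [Finite V] (A : Fam V),
  MC A → finrank (ZMod 2) V ≤ 3 → False

/-- MCF. There is no minimal configuration: N3, FWF, CBF. -/
def S_MCF : Prop := ∀ (V : Type) [AddCommGroup V] [Module (ZMod 2) V] [Finite V] (A : Fam V),
  MC A → False

/-- QUO. Reduction to full support: if `supp A ≠ ⊤`, divide by `N = {v : ∀ f ∈ supp A, f v = 0}`: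
`V' = V ⧸ N`, `A'` = forms on `V'` whose pullback is in `A`.  Forms of `A` factor through `V'`
(they kill `N` and have values killing `N`).  `Hered A'`: `res A' X'` pulls back to `res A X` with `X` the
image of `X'` in `Dl V`.  `El A' → El A`: induction on `El`, pullback along the surjection `V → V'`
(`supp`, `⊔`, `wd` are compatible; the pullback `Dl V' → Dl V` is injective). -/
def S_QUO : Prop := ∀ (V : Type) [AddCommGroup V] [Module (ZMod 2) V] [Finite V] (A : Fam V),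
  AltFam A → Hered A → supp A ≠ ⊤ →
  ∃ (V' : Type) (_ : AddCommGroup V') (_ : Module (ZMod 2) V') (_ : Finite V') (A' : Fam V'),
    finrank (ZMod 2) V' < finrank (ZMod 2) V ∧ AltFam A' ∧ Hered A' ∧ (El A' → El A)

/-- CORE. Hereditarily linked alternating families are of elementary type: strong induction on
`finrank V`: if `supp A ≠ ⊤` QUO; otherwise all `res A X`, `X ≠ ⊤`, are El by QUO and induction
(`supp (res A X) ≤ X ≠ ⊤`), so if `El A` failed, `MC A`: contradiction by MCF. -/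
def S_CORE : Prop := ∀ (V : Type) [AddCommGroup V] [Module (ZMod 2) V] [Finite V] (A : Fam V),
  AltFam A → Hered A → El A

/-! ### quaternionic structures -/

section
open Pool.Agent.H315R3.ETC

/-- BRI. From quaternionic structures with `-1 = 1` in which symbols extend to families.
Proof.  `V = Additive S.G` (exponent 2, `AddCommGroup.zmodModule`), `A` = set of bilinear forms `ω` with
`ω(a,b) = 0` whenever `q(a,b) = 0`.  Alternating: `q(a,a) = q(a,-a) = 0`.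
`ω(a,b) = 0 ∀ ω ∈ A` implies `q(a,b) = 0`: for `W = {1,a}` the map `χ(a,·) = f`, `χ(1,·) = 0`, `f` any functional
vanishing on the subgroup `{y : q(a,y) = 0}` (QS3) is a symbol on `W`, extend it (MX).  So
`q(a,b) = q(c,d)` iff `ω(a,b) = ω(c,d)` for all `ω ∈ A`: if `q(a,b) = q(c,d)`, QS4 gives `x` with
`q(a,b) = q(a,x)`, `q(c,d) = q(c,x)`, and `q(a,x) = q(c,x)` gives (QS2, QS3) `q(ac,x) = 0`; conversely if all
`ω(a,b) = ω(c,d)`, PL-type argument is needed: use `Linked A` (below) and S_PL to get `z` with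
`B(a,b+z) = 0`, `B(c,d+z) = 0`, `B(a+c,z) = 0`, hence `q(a,b) = q(a,z) = q(c,z) = q(c,d)`.
`Hered A`: for `X`, let `U` = annihilator of `X` in `V` (a subgroup); `res A X` = members killing `U`.  Given
`ω, η ∈ res A X`, `ω a = η c = f`: if `a ∈ U` or `c ∈ U`, `f = 0`, take `ζ = 0`; if `a + c ∈ U` take `ζ = ω`;
otherwise on `W = U + ⟨a,c⟩` put `χ(u + εa + δc, z) = (ε+δ) f(z)`: a symbol on `W` (if `q(u+a,z) = 0`,
`f z = ω(a,z) = ω(u+a,z) = 0`; similarly for `u + c`), extend it. -/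
def S_BRI : Prop := ∀ S : QData, IsQuat S → S.neg = 1 → Finite S.G → MX S →
  ∃ (V : Type) (_ : AddCommGroup V) (_ : Module (ZMod 2) V) (_ : Finite V) (A : Fam V),
    AltFam A ∧ Hered A ∧ Iso (QD A) S

/-- BRO. Families of elementary type give structures of elementary type.
Proof.  Show by induction on `El A` (for all `V`): for every finite `V'` and linear surjection
`π : V → V'` such that all members of `A` are pullbacks along `π`, with `A'` = forms on `V'` whose pullback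
is in `A`: `Elem (QD A')`.  `zero`: `QD ⊥` on `V'` is a product of copies of `L10` (or `L0`).  `loc ω`: split
`V' = V'' × N`, `N` the radical: `QD (span ω) ≅ prod (QD on V'') (QD ⊥ on N)`, on `V''` nondegenerate: dimension 0:
`L0`; dimension 2: `≅ ext L10`; dimension ≥ 4 (even): `IsLocal`.  `prod A B`: choose `Dl V' = X₁ ⊕ X₂` with
`supp A' ≤ X₁`, `supp B' ≤ X₂`; `V' ≅ V'/X₁^⊥ × V'/X₂^⊥` and `QD` is the product of the two `QD`s (induction
hypothesis for the two quotients).  `cone A p Y`: choose `Dl V' = ⟨p⟩ ⊕ Y ⊕ Z` (if `Y ≠ 0`; else the family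
is `A`), then `QD ≅ prod (ext (QD A on V'/Y^⊥)) (QD ⊥)`: with `V'/(⟨p⟩+Y)^⊥ = V'' × F_2 x`, `p` = coordinate of
`x`, values `(A-values of (a,b), β a + α b)` because `(p∧g)(a + αx, b + βx) = α g(b) + β g(a)`,
`g` ranging over all functionals of `V''`; `neg = 1`. -/
def S_BRO : Prop := ∀ (V : Type) [AddCommGroup V] [Module (ZMod 2) V] [Finite V] (A : Fam V),
  El A → Elem (QD A)

/-- CONV. In structures of elementary type with `-1 = 1` symbols extend.
Proof: induction on `Elem` (claim `S.neg = 1 → MX S`; also carry `IsQuat S`, see the library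
`Pool.Agent.H315R3.ETC` or prove the few axioms needed).  `l0`, `l10`: all symbols are zero.  `l11`, `l1`:
`neg ≠ 1`.  `loc`: `K_a = {b : q(a,b) = 0}` has index 2 for `a ≠ 1` (two quaternions, nondegenerate), so
`q(a,b) = 0 ↔ ω(a,b) = 0` for a nondegenerate bilinear `ω`; a symbol on `W` is `χ(w,·) = λ(w) ω(w,·)`, additivity
and linear independence of `ω(w,·), ω(w',·)` force `λ` constant on `W ∖ 1`; extend by `λ ω`.  `prod`: `χ(w,(z₁,z₂)) =
χ(w,(z₁,1)) χ(w,(1,z₂))`-type splitting; `χ(w,(z₁,1))` depends only on the first coordinate of `w`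
(as `q(1,z₁) = 0`) and is a symbol on the projection of `W`.  `ext`: let `W₀ = W ∩ (G × 1)`.  On `W₀`:
`χ(w,(z,ξ)) = χ(w,(z,1)) + ξ g(w)`, first part extends by `MX S`, `g` extends to a homomorphism on `G`
(`G` need not be finite: exponent-2 groups are `F_2`-vector spaces), extension
`ω(a,b) + α g(b) + β g(a)`.  If `w₀ = (a₀,x) ∈ W`: subtract the extension; then `χ` kills `W₀` and
`f = χ(w₀,·)` kills `w₀` and `W₀` (`q(w₀w, w₀w) = 0`), and `p ∧ f` (`p` the second coordinate) extends it. -/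
def S_CONV : Prop := ∀ S : QData, Elem S → S.neg = 1 → MX S

end

end Pool.Agent.W622.ETC
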