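import Pool.Agent.W622.ETC.Asm
import Pool.Agent.W101.ELT.N3
import Pool.Agent.W108.ELT.GLUE
import Pool.Agent.W125.ELT.HH
import Pool.Agent.W131.ELT.SPLIT
import Pool.Agent.W154.ELT.NGC
import Pool.Agent.W179.ELT.A1
import Pool.Agent.W22.ELT.LU
import Pool.Agent.W240.ELT.A4
import Pool.Agent.W298.ELT.ADD
import Pool.Agent.W298.ELT.BEV
import Pool.Agent.W298.ELT.C1A
import Pool.Agent.W298.ELT.COMP
import Pool.Agent.W298.ELT.FWF
import Pool.Agent.W298.ELT.L2
import Pool.Agent.W327.ELT.ES2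
import Pool.Agent.W346.ELT.BLK
import Pool.Agent.W349.ELT.BRI
import Pool.Agent.W349.ELT.NGF
import Pool.Agent.W358.ELT.C1B
import Pool.Agent.W366.ELT.BETA
import Pool.Agent.W381.ELT.AGP
import Pool.Agent.W412.ELT.ELI
import Pool.Agent.W412.ELT.FIND
import Pool.Agent.W414.ELT.A3
import Pool.Agent.W431.ELT.SIX
import Pool.Agent.W460.ELT.DEC
import Pool.Agent.W469.ELT.C2
import Pool.Agent.W469.ELT.CB1
import Pool.Agent.W481.ELT.IDIM
import Pool.Agent.W490.ELT.AG2
import Pool.Agent.W505.ELT.ES1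
import Pool.Agent.W505.ELT.NF
import Pool.Agent.W505.ELT.ST0
import Pool.Agent.W571.ELT.AGI
import Pool.Agent.W571.ELT.BRO
import Pool.Agent.W585.ELT.BDIS
import Pool.Agent.W636.ELT.QUO
import Pool.Agent.W639.ELT.PL
import Pool.Agent.W64.ELT.FDEC
import Pool.Agent.W688.ELT.RIG1
import Pool.Agent.W73.ELT.AGB
import Pool.Agent.W736.ELT.CONV
import Pool.Agent.W737.ELT.STAR
import Pool.Agent.W782.ELT.F5
import Pool.Agent.W797.ELT.FULL
import Pool.Agent.W806.ELT.FUNI
import Pool.Agent.W82.ELT.AG3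
import Pool.Agent.W839.ELT.MD
import Pool.Agent.W928.ELT.BFULL
import Pool.Agent.W930.ELT.EVEN
import Pool.Agent.W948.ELT.NG

set_option autoImplicit false

namespace Pool.Agent.W622.ETC

theorem all_parts  : S_CORE ∧ S_BRI ∧ S_BRO := by
  have pEVEN : S_EVEN := by first | exact Pool.Agent.W930.ELT.t_EVEN | (apply Pool.Agent.W930.ELT.t_EVEN <;> assumption)
  have pGLUE : S_GLUE := by first | exact Pool.Agent.W108.ELT.t_GLUE | (apply Pool.Agent.W108.ELT.t_GLUE <;> assumption)
  have pIDIM : S_IDIM := by first | exact Pool.Agent.W481.ELT.t_IDIM | (apply Pool.Agent.W481.ELT.t_IDIM <;> assumption)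
  have pLU : S_LU := by first | exact Pool.Agent.W22.ELT.t_LU | (apply Pool.Agent.W22.ELT.t_LU <;> assumption)
  have pPL : S_PL := by first | exact Pool.Agent.W639.ELT.t_PL | (apply Pool.Agent.W639.ELT.t_PL <;> assumption)
  have pRIG1 : S_RIG1 := by first | exact Pool.Agent.W688.ELT.t_RIG1 | (apply Pool.Agent.W688.ELT.t_RIG1 <;> assumption)
  have pRIG : S_RIG := by first | exact Pool.Agent.W688.ELT.t_RIG | (apply Pool.Agent.W688.ELT.t_RIG <;> assumption)
  have pST0 : S_ST0 := by first | exact Pool.Agent.W505.ELT.t_ST0 | (apply Pool.Agent.W505.ELT.t_ST0 <;> assumption)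
  have pNF : S_NF := by first | exact Pool.Agent.W505.ELT.t_NF | (apply Pool.Agent.W505.ELT.t_NF <;> assumption)
  have pSPLIT : S_SPLIT := by first | exact Pool.Agent.W131.ELT.t_SPLIT | (apply Pool.Agent.W131.ELT.t_SPLIT <;> assumption)
  have pES1 : S_ES1 := by first | exact Pool.Agent.W505.ELT.t_ES1 | (apply Pool.Agent.W505.ELT.t_ES1 <;> assumption)
  have pES2 : S_ES2 := by first | exact Pool.Agent.W327.ELT.t_ES2 | (apply Pool.Agent.W327.ELT.t_ES2 <;> assumption)
  have pFULL : S_FULL := by first | exact Pool.Agent.W797.ELT.t_FULL | (apply Pool.Agent.W797.ELT.t_FULL <;> assumption)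
  have pBFULL : S_BFULL := by first | exact Pool.Agent.W928.ELT.t_BFULL | (apply Pool.Agent.W928.ELT.t_BFULL <;> assumption)
  have pA1 : S_A1 := by first | exact Pool.Agent.W179.ELT.t_A1 | (apply Pool.Agent.W179.ELT.t_A1 <;> assumption)
  have pBNT : S_BNT := by first | exact Pool.Agent.W346.ELT.t_BNT | (apply Pool.Agent.W346.ELT.t_BNT <;> assumption)
  have pBLK : S_BLK := by first | exact Pool.Agent.W346.ELT.t_BLK | (apply Pool.Agent.W346.ELT.t_BLK <;> assumption)
  have pA3 : S_A3 := by first | exact Pool.Agent.W414.ELT.t_A3 | (apply Pool.Agent.W414.ELT.t_A3 <;> assumption)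
  have pA4 : S_A4 := by first | exact Pool.Agent.W240.ELT.t_A4 | (apply Pool.Agent.W240.ELT.t_A4 <;> assumption)
  have pDEC : S_DEC := by first | exact Pool.Agent.W460.ELT.t_DEC | (apply Pool.Agent.W460.ELT.t_DEC <;> assumption)
  have pSTAR : S_STAR := by first | exact Pool.Agent.W737.ELT.t_STAR | (apply Pool.Agent.W737.ELT.t_STAR <;> assumption)
  have pOM : S_OM := by first | exact Pool.Agent.W346.ELT.t_OM | (apply Pool.Agent.W346.ELT.t_OM <;> assumption)
  have pADD : S_ADD := by first | exact Pool.Agent.W298.ELT.t_ADD | (apply Pool.Agent.W298.ELT.t_ADD <;> assumption)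
  have pBDIS : S_BDIS := by first | exact Pool.Agent.W585.ELT.t_BDIS | (apply Pool.Agent.W585.ELT.t_BDIS <;> assumption)
  have pCOMP : S_COMP := by first | exact Pool.Agent.W298.ELT.t_COMP | (apply Pool.Agent.W298.ELT.t_COMP <;> assumption)
  have pFIND : S_FIND := by first | exact Pool.Agent.W412.ELT.t_FIND | (apply Pool.Agent.W412.ELT.t_FIND <;> assumption)
  have pFDEC : S_FDEC := by first | exact Pool.Agent.W64.ELT.t_FDEC | (apply Pool.Agent.W64.ELT.t_FDEC <;> assumption)
  have pFUNI : S_FUNI := by first | exact Pool.Agent.W806.ELT.t_FUNI | (apply Pool.Agent.W806.ELT.t_FUNI <;> assumption)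
  have pELI : S_ELI := by first | exact Pool.Agent.W412.ELT.t_ELI | (apply Pool.Agent.W412.ELT.t_ELI <;> assumption)
  have pF5 : S_F5 := by first | exact Pool.Agent.W782.ELT.t_F5 | (apply Pool.Agent.W782.ELT.t_F5 <;> assumption)
  have pNG : S_NG := by first | exact Pool.Agent.W948.ELT.t_NG | (apply Pool.Agent.W948.ELT.t_NG <;> assumption)
  have pBEV : S_BEV := by first | exact Pool.Agent.W298.ELT.t_BEV | (apply Pool.Agent.W298.ELT.t_BEV <;> assumption)
  have pC1A : S_C1A := by first | exact Pool.Agent.W298.ELT.t_C1A | (apply Pool.Agent.W298.ELT.t_C1A <;> assumption)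
  have pC1B : S_C1B := by first | exact Pool.Agent.W358.ELT.t_C1B | (apply Pool.Agent.W358.ELT.t_C1B <;> assumption)
  have pC2 : S_C2 := by first | exact Pool.Agent.W469.ELT.t_C2 | (apply Pool.Agent.W469.ELT.t_C2 <;> assumption)
  have pFWF : S_FWF := by first | exact Pool.Agent.W298.ELT.t_FWF | (apply Pool.Agent.W298.ELT.t_FWF <;> assumption)
  have pCB1 : S_CB1 := by first | exact Pool.Agent.W469.ELT.t_CB1 | (apply Pool.Agent.W469.ELT.t_CB1 <;> assumption)
  have pL2 : S_L2 := by first | exact Pool.Agent.W298.ELT.t_L2 | (apply Pool.Agent.W298.ELT.t_L2 <;> assumption)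
  have pMD : S_MD := by first | exact Pool.Agent.W839.ELT.t_MD | (apply Pool.Agent.W839.ELT.t_MD <;> assumption)
  have pNGC : S_NGC := by first | exact Pool.Agent.W154.ELT.t_NGC | (apply Pool.Agent.W154.ELT.t_NGC <;> assumption)
  have pHH : S_HH := by first | exact Pool.Agent.W125.ELT.t_HH | (apply Pool.Agent.W125.ELT.t_HH <;> assumption)
  have pSIX : S_SIX := by first | exact Pool.Agent.W431.ELT.t_SIX | (apply Pool.Agent.W431.ELT.t_SIX <;> assumption)
  have pBETA : S_BETA := by first | exact Pool.Agent.W366.ELT.t_BETA | (apply Pool.Agent.W366.ELT.t_BETA <;> assumption)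
  have pNGF : S_NGF := by first | exact Pool.Agent.W349.ELT.t_NGF | (apply Pool.Agent.W349.ELT.t_NGF <;> assumption)
  have pAGI : S_AGI := by first | exact Pool.Agent.W571.ELT.t_AGI | (apply Pool.Agent.W571.ELT.t_AGI <;> assumption)
  have pAGB : S_AGB := by first | exact Pool.Agent.W73.ELT.t_AGB | (apply Pool.Agent.W73.ELT.t_AGB <;> assumption)
  have pAGP : S_AGP := by first | exact Pool.Agent.W381.ELT.t_AGP | (apply Pool.Agent.W381.ELT.t_AGP <;> assumption)
  have pAG2 : S_AG2 := by first | exact Pool.Agent.W490.ELT.t_AG2 | (apply Pool.Agent.W490.ELT.t_AG2 <;> assumption)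
  have pAG3 : S_AG3 := by first | exact Pool.Agent.W82.ELT.t_AG3 | (apply Pool.Agent.W82.ELT.t_AG3 <;> assumption)
  have pCBF : S_CBF := by first | exact Pool.Agent.W622.ETC.t_CBF | (apply Pool.Agent.W622.ETC.t_CBF <;> assumption)
  have pN3 : S_N3 := by first | exact Pool.Agent.W101.ELT.t_N3 | (apply Pool.Agent.W101.ELT.t_N3 <;> assumption)
  have pMCF : S_MCF := by first | exact Pool.Agent.W622.ETC.t_MCF | (apply Pool.Agent.W622.ETC.t_MCF <;> assumption)
  have pQUO : S_QUO := by first | exact Pool.Agent.W636.ELT.t_QUO | (apply Pool.Agent.W636.ELT.t_QUO <;> assumption)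
  have pCORE : S_CORE := by first | exact Pool.Agent.W622.ETC.t_CORE | (apply Pool.Agent.W622.ETC.t_CORE <;> assumption)
  have pBRI : S_BRI := by first | exact Pool.Agent.W349.ELT.t_BRI | (apply Pool.Agent.W349.ELT.t_BRI <;> assumption)
  have pBRO : S_BRO := by first | exact Pool.Agent.W571.ELT.t_BRO | (apply Pool.Agent.W571.ELT.t_BRO <;> assumption)
  exact ⟨pCORE, pBRI, pBRO⟩

end Pool.Agent.W622.ETC
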